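import Mathlib

set_option autoImplicit false

namespace Pool.Agent.Helper660.TP

open PiNat

/-- ultrametric: if `z` agrees with `x` longer than `y` does, then `y` sees `z` as it sees `x`. -/
theorem fd_eq {B : Type} {x y z : ℕ → B} (hxy : x ≠ y)
    (h : firstDiff x y < firstDiff x z) : firstDiff y z = firstDiff x y ∧ y ≠ z := by
  have hzx : z (firstDiff x y) = x (firstDiff x y) := (apply_eq_of_lt_firstDiff h).symm
  have hne : x (firstDiff x y) ≠ y (firstDiff x y) := apply_firstDiff_ne hxy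
  have hyz : y ≠ z := by
    intro e; apply hne; rw [← hzx, ← e]
  refine ⟨?_, hyz⟩
  have h1 : ¬ firstDiff x y < firstDiff y z := by
    intro hlt
    have := apply_eq_of_lt_firstDiff hlt
    apply hne; rw [this, hzx]
  have h2 : ¬ firstDiff y z < firstDiff x y := by
    intro hlt
    have e1 := apply_eq_of_lt_firstDiff hlt
    have e2 := apply_eq_of_lt_firstDiff (lt_trans hlt h)
    exact apply_firstDiff_ne hyz (by rw [← e1, e2])
  omega

section
variable {B F A : Type} [Fintype F] [LinearOrder F] [DecidableEq A]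

/-- digits at the first level of difference -/
noncomputable def D (c u : ℕ → B) : B × B := (c (firstDiff c u), u (firstDiff c u))

/-- agreement set of a pair of digits -/
def Z (π : F → B → A) (p : B × B) : Finset F := Finset.univ.filter (fun x => π x p.1 = π x p.2)

omit [LinearOrder F] in
theorem mem_Z (π : F → B → A) (x : F) (p : B × B) : x ∈ Z π p ↔ π x p.1 = π x p.2 := by
  simp [Z]

omit [LinearOrder F] in
theorem mem_Z_D (π : F → B → A) (x : F) (c u : ℕ → B) :
    x ∈ Z π (D c u) ↔ π x (c (firstDiff c u)) = π x (u (firstDiff c u)) := mem_Z π x _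

/-- position of `x` in the agreement set -/
def pos (π : F → B → A) (x : F) (p : B × B) : ℕ := ((Z π p).filter (fun y => y < x)).card

omit [Fintype F] [LinearOrder F] [DecidableEq A] in
theorem D_eq {c u z : ℕ → B} (hcu : c ≠ z) (h : firstDiff c z < firstDiff c u) :
    firstDiff u z = firstDiff c z ∧ D u z = D c z := by
  have h1 := fd_eq hcu h
  have h2 : firstDiff u z = firstDiff c z := by rw [firstDiff_comm]; exact h1.1
  refine ⟨h2, ?_⟩
  unfold D
  rw [h2]
  have : c (firstDiff c z) = u (firstDiff c z) := apply_eq_of_lt_firstDiff h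
  rw [this]

theorem pos_inj (π : F → B → A) {x y : F} {p : B × B} (hx : x ∈ Z π p) (hy : y ∈ Z π p)
    (h : pos π x p = pos π y p) : x = y := by
  by_contra hne
  rcases lt_or_gt_of_ne hne with hlt | hlt
  · have : (Z π p).filter (fun w => w < x) ⊂ (Z π p).filter (fun w => w < y) := by
      rw [Finset.ssubset_iff_of_subset]
      · exact ⟨x, by simp [hx, hlt], by simp⟩
      · intro w hw
        simp only [Finset.mem_filter] at hw ⊢
        exact ⟨hw.1, hw.2.trans hlt⟩
    have := Finset.card_lt_card this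
    unfold pos at h; omega
  · have : (Z π p).filter (fun w => w < y) ⊂ (Z π p).filter (fun w => w < x) := by
      rw [Finset.ssubset_iff_of_subset]
      · exact ⟨y, by simp [hy, hlt], by simp⟩
      · intro w hw
        simp only [Finset.mem_filter] at hw ⊢
        exact ⟨hw.1, hw.2.trans hlt⟩
    have := Finset.card_lt_card this
    unfold pos at h; omega

/-- a valid star with corner `c` and mates `f` -/
structure IsStar (π : F → B → A) (d : ℕ) (enc : B → ℕ) (χ : B × B → B × B → ℕ)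
    (γ : B × B → B × B → F) (c : ℕ → B) (f : Finset (ℕ → B)) (x : (ℕ → B) → F)
    (u1 u2 u3 : ℕ → B) (i : ℕ) (ρ : Bool) : Prop where
  hcard : f.card = d
  hc : c ∉ f
  h1 : u1 ∈ f
  h2 : u2 ∈ f
  h3 : u3 ∈ f
  hxinj : ∀ u ∈ f, ∀ w ∈ f, x u = x w → u = w
  hexact : ∀ u ∈ f, ∀ v, π (x u) (u v) = π (x u) (c v)
  hlev : ∀ u ∈ f, ∀ w ∈ f, firstDiff c u = firstDiff c w → u = w
  h12 : firstDiff c u2 < firstDiff c u1
  h23 : firstDiff c u3 < firstDiff c u2
  hrest : ∀ w ∈ f, w ≠ u1 → w ≠ u2 → w ≠ u3 → firstDiff c w < firstDiff c u3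
  hsign : ∀ u ∈ f, (enc (D c u).1 < enc (D c u).2 ↔ ρ = true)
  hpos : ∀ u ∈ f, pos π (x u) (D c u) = i
  hχ12 : χ (D c u1) (D c u2) = i
  hχ13 : χ (D c u1) (D c u3) = i
  hχ23 : χ (D c u2) (D c u3) = i
  hγ : γ (D c u2) (D c u3) = x u1
  hiso : ∀ u ∈ f, u ≠ u1 → x u ∉ Z π (D c u1)

/-- what a `d`-subset of a star's edge shows -/
structure View (χ : B × B → B × B → ℕ) (c : ℕ → B) (f : Finset (ℕ → B))
    (u1 u2 u3 : ℕ → B) (i : ℕ) (g : Finset (ℕ → B)) (y y2 y3 : ℕ → B) : Prop where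
  hy : y ∈ g
  hy2 : y2 ∈ g
  hy3 : y3 ∈ g
  hne2 : y2 ≠ y
  hne3 : y3 ≠ y
  hf : ∀ z ∈ g, z ≠ y → z ∈ f
  hfd : ∀ z ∈ g, z ≠ y → firstDiff y z = firstDiff c z
  hD : ∀ z ∈ g, z ≠ y → D y z = D c z
  h23 : firstDiff y y3 < firstDiff y y2
  hmax : ∀ z ∈ g, z ≠ y → z ≠ y2 → z ≠ y3 → firstDiff y z < firstDiff y y3
  hχ : χ (D y y2) (D y y3) = i
  hcase : y = c ∨ (y = u1 ∧ c ∉ g ∧ y2 = u2 ∧ y3 = u3 ∧ ∀ z ∈ f, z ∈ g)

theorem exists_view (π : F → B → A) {d : ℕ} {enc : B → ℕ} {χ : B × B → B × B → ℕ}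
    {γ : B × B → B × B → F} {c : ℕ → B} {f : Finset (ℕ → B)} {x : (ℕ → B) → F}
    {u1 u2 u3 : ℕ → B} {i : ℕ} {ρ : Bool}
    (σ : IsStar π d enc χ γ c f x u1 u2 u3 i ρ) {p : ℕ → B} {g : Finset (ℕ → B)}
    (hg : ∀ z, z ∈ g ↔ (z = c ∨ z ∈ f) ∧ z ≠ p) :
    ∃ y y2 y3, View χ c f u1 u2 u3 i g y y2 y3 := by
  have hc1 : c ≠ u1 := fun h => σ.hc (h ▸ σ.h1)
  have hc2 : c ≠ u2 := fun h => σ.hc (h ▸ σ.h2)
  have hc3 : c ≠ u3 := fun h => σ.hc (h ▸ σ.h3)
  have h12 := σ.h12
  have h23 := σ.h23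
  have n12 : u1 ≠ u2 := by rintro rfl; omega
  have n13 : u1 ≠ u3 := by rintro rfl; omega
  have n23 : u2 ≠ u3 := by rintro rfl; omega
  have hlt1 : ∀ z ∈ f, z ≠ u1 → firstDiff c z < firstDiff c u1 := by
    intro z hz hz1
    by_cases e2 : z = u2
    · subst e2; exact h12
    by_cases e3 : z = u3
    · subst e3; omega
    have := σ.hrest z hz hz1 e2 e3
    omega
  by_cases hpc : p = c
  · -- type C
    have hgf : ∀ z, z ∈ g ↔ z ∈ f := by
      intro z; rw [hg z, hpc]
      constructor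
      · rintro ⟨h | h, h'⟩
        · exact absurd h h'
        · exact h
      · intro h; exact ⟨Or.inr h, fun e => σ.hc (e ▸ h)⟩
    have key : ∀ z ∈ g, z ≠ u1 → firstDiff u1 z = firstDiff c z ∧ D u1 z = D c z := by
      intro z hz hz1
      have hzf := (hgf z).1 hz
      exact D_eq (fun e => σ.hc (e ▸ hzf)) (hlt1 z hzf hz1)
    have k2 := key u2 ((hgf _).2 σ.h2) n12.symm
    have k3 := key u3 ((hgf _).2 σ.h3) n13.symm
    refine ⟨u1, u2, u3, (hgf _).2 σ.h1, (hgf _).2 σ.h2, (hgf _).2 σ.h3, n12.symm, n13.symm,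
      fun z hz _ => (hgf z).1 hz, fun z hz h => (key z hz h).1, fun z hz h => (key z hz h).2,
      ?_, ?_, ?_, Or.inr ⟨rfl, ?_, rfl, rfl, fun z hz => (hgf z).2 hz⟩⟩
    · rw [k2.1, k3.1]; exact h23
    · intro z hz hz1 hz2 hz3
      rw [(key z hz hz1).1, k3.1]
      exact σ.hrest z ((hgf z).1 hz) hz1 hz2 hz3
    · rw [k2.2, k3.2]; exact σ.hχ23
    · rw [hgf]; exact σ.hc
  · have hcg : c ∈ g := (hg c).2 ⟨Or.inl rfl, fun e => hpc e.symm⟩
    have hff : ∀ z ∈ g, z ≠ c → z ∈ f := by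
      intro z hz hzc
      rcases ((hg z).1 hz).1 with h | h
      · exact absurd h hzc
      · exact h
    by_cases hp1 : p = u1
    · refine ⟨c, u2, u3, hcg, (hg _).2 ⟨Or.inr σ.h2, by rw [hp1]; exact n12.symm⟩,
        (hg _).2 ⟨Or.inr σ.h3, by rw [hp1]; exact n13.symm⟩, hc2.symm, hc3.symm,
        hff, fun _ _ _ => rfl, fun _ _ _ => rfl, h23, ?_, σ.hχ23, Or.inl rfl⟩
      intro z hz hzc hz2 hz3
      exact σ.hrest z (hff z hz hzc) (by rintro rfl; exact ((hg z).1 hz).2 hp1.symm) hz2 hz3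
    · have h1g : u1 ∈ g := (hg _).2 ⟨Or.inr σ.h1, fun e => hp1 e.symm⟩
      by_cases hp2 : p = u2
      · refine ⟨c, u1, u3, hcg, h1g, (hg _).2 ⟨Or.inr σ.h3, by rw [hp2]; exact n23.symm⟩,
          hc1.symm, hc3.symm,
          hff, fun _ _ _ => rfl, fun _ _ _ => rfl, h23.trans h12, ?_, σ.hχ13, Or.inl rfl⟩
        intro z hz hzc hz2 hz3
        exact σ.hrest z (hff z hz hzc) hz2 (by rintro rfl; exact ((hg z).1 hz).2 hp2.symm) hz3
      · have h2g : u2 ∈ g := (hg _).2 ⟨Or.inr σ.h2, fun e => hp2 e.symm⟩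
        refine ⟨c, u1, u2, hcg, h1g, h2g, hc1.symm, hc2.symm,
          hff, fun _ _ _ => rfl, fun _ _ _ => rfl, h12, ?_, σ.hχ12, Or.inl rfl⟩
        intro z hz hzc hz2 hz3
        by_cases e3 : z = u3
        · rw [e3]; exact h23
        · exact (σ.hrest z (hff z hz hzc) hz2 hz3 e3).trans h23

theorem corner_unique (π : F → B → A) {d : ℕ} (hd : 3 ≤ d)
    (hM : ∀ b b' : B, ∀ T : Finset F, d ≤ T.card → (∀ x ∈ T, π x b = π x b') → b = b')
    {enc : B → ℕ} (henc : Function.Injective enc) {χ : B × B → B × B → ℕ}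
    {γ : B × B → B × B → F} {c : ℕ → B} {f : Finset (ℕ → B)} {x : (ℕ → B) → F}
    {u1 u2 u3 : ℕ → B} {i : ℕ} {ρ : Bool}
    (σ : IsStar π d enc χ γ c f x u1 u2 u3 i ρ)
    {c' : ℕ → B} {f' : Finset (ℕ → B)} {x' : (ℕ → B) → F}
    {u1' u2' u3' : ℕ → B} {i' : ℕ} {ρ' : Bool}
    (σ' : IsStar π d enc χ γ c' f' x' u1' u2' u3' i' ρ')
    {p p' : ℕ → B} {g : Finset (ℕ → B)} (hgc : g.card = d)
    (hg : ∀ z, z ∈ g ↔ (z = c ∨ z ∈ f) ∧ z ≠ p)
    (hg' : ∀ z, z ∈ g ↔ (z = c' ∨ z ∈ f') ∧ z ≠ p') : c = c' := by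
  classical
  obtain ⟨y, y2, y3, V⟩ := exists_view π σ hg
  obtain ⟨y', y2', y3', V'⟩ := exists_view π σ' hg'
  have sgn : ∀ z ∈ g, z ≠ y → (enc (D y z).1 < enc (D y z).2 ↔ ρ = true) := by
    intro z hz hzy; rw [V.hD z hz hzy]; exact σ.hsign z (V.hf z hz hzy)
  have sgn' : ∀ z ∈ g, z ≠ y' → (enc (D y' z).1 < enc (D y' z).2 ↔ ρ' = true) := by
    intro z hz hzy; rw [V'.hD z hz hzy]; exact σ'.hsign z (V'.hf z hz hzy)
  have inj : ∀ z ∈ g, z ≠ y → ∀ w ∈ g, w ≠ y → firstDiff y z = firstDiff y w → z = w := by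
    intro z hz hzy w hw hwy h
    rw [V.hfd z hz hzy, V.hfd w hw hwy] at h
    exact σ.hlev z (V.hf z hz hzy) w (V.hf w hw hwy) h
  have inj' : ∀ z ∈ g, z ≠ y' → ∀ w ∈ g, w ≠ y' → firstDiff y' z = firstDiff y' w → z = w := by
    intro z hz hzy w hw hwy h
    rw [V'.hfd z hz hzy, V'.hfd w hw hwy] at h
    exact σ'.hlev z (V'.hf z hz hzy) w (V'.hf w hw hwy) h
  -- main elements coincide
  have hyy : y = y' := by
    by_contra hne
    -- pick a third element
    obtain ⟨z, hz, hzy, hzy'⟩ : ∃ z ∈ g, z ≠ y ∧ z ≠ y' := by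
      have : 2 < g.card := by omega
      obtain ⟨z, hz, hz'⟩ := Finset.exists_mem_notMem_of_card_lt_card
        (s := {y, y'}) (t := g) (lt_of_le_of_lt Finset.card_le_two this)
      refine ⟨z, hz, ?_, ?_⟩ <;> (rintro rfl; simp at hz')
    have hlt : firstDiff y z < firstDiff y y' := by
      rcases lt_trichotomy (firstDiff y z) (firstDiff y y') with h | h | h
      · exact h
      · exact absurd (inj z hz hzy y' V'.hy (fun e => hne e.symm) h) hzy'
      · exfalso
        have h1 := (fd_eq hne h).1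
        have h2 : firstDiff y' z = firstDiff y' y := by rw [h1, firstDiff_comm]
        exact hzy (inj' z hz hzy' y V.hy hne h2)
    have hk := D_eq (c := y) (u := y') (z := z) (fun e => hzy e.symm) hlt
    have s1 := sgn z hz hzy
    have s2 := sgn' z hz hzy'
    rw [hk.2] at s2
    have hρ : (ρ = true) ↔ (ρ' = true) := s1.symm.trans s2
    have s3 := sgn y' V'.hy (fun e => hne e.symm)
    have s4 := sgn' y V.hy hne
    have hD1 : (D y y').1 = y (firstDiff y y') := rfl
    have hD2 : (D y y').2 = y' (firstDiff y y') := rfl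
    have hD3 : (D y' y).1 = y' (firstDiff y y') := by
      show y' (firstDiff y' y) = _; rw [firstDiff_comm]
    have hD4 : (D y' y).2 = y (firstDiff y y') := by
      show y (firstDiff y' y) = _; rw [firstDiff_comm]
    rw [hD1, hD2] at s3
    rw [hD3, hD4] at s4
    have hne2 : enc (y (firstDiff y y')) ≠ enc (y' (firstDiff y y')) :=
      fun e => apply_firstDiff_ne hne (henc e)
    have s5 := s3.trans (hρ.trans s4.symm)
    omega
  subst hyy
  -- the two deepest elements coincide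
  have h2 : y2 = y2' := by
    by_contra hne
    have a1 : firstDiff y y2' < firstDiff y y2 := by
      by_cases e : y2' = y3
      · rw [e]; exact V.h23
      · exact (V.hmax y2' V'.hy2 V'.hne2 (fun e => hne e.symm) e).trans V.h23
    have a2 : firstDiff y y2 < firstDiff y y2' := by
      by_cases e : y2 = y3'
      · rw [e]; exact V'.h23
      · exact (V'.hmax y2 V.hy2 V.hne2 hne e).trans V'.h23
    omega
  subst h2
  have h3 : y3 = y3' := by
    by_contra hne
    have n1 : y3' ≠ y2 := by intro e; have := V'.h23; rw [e] at this; omega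
    have n2 : y3 ≠ y2 := by intro e; have := V.h23; rw [e] at this; omega
    have a1 := V.hmax y3' V'.hy3 V'.hne3 n1 (fun e => hne e.symm)
    have a2 := V'.hmax y3 V.hy3 V.hne3 n2 hne
    omega
  subst h3
  have hi : i = i' := by rw [← V.hχ, ← V'.hχ]
  subst hi
  -- roles coincide
  have memZ : ∀ z ∈ g, z ≠ y → x z ∈ Z π (D y z) := by
    intro z hz hzy
    rw [V.hD z hz hzy, mem_Z_D]
    exact (σ.hexact z (V.hf z hz hzy) _).symm
  have memZ' : ∀ z ∈ g, z ≠ y → x' z ∈ Z π (D y z) := by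
    intro z hz hzy
    rw [V'.hD z hz hzy, mem_Z_D]
    exact (σ'.hexact z (V'.hf z hz hzy) _).symm
  have hx : ∀ z ∈ g, z ≠ y → x z = x' z := by
    intro z hz hzy
    refine pos_inj π (memZ z hz hzy) (memZ' z hz hzy) ?_
    have e1 : pos π (x z) (D y z) = i := by
      rw [V.hD z hz hzy]; exact σ.hpos z (V.hf z hz hzy)
    have e2 : pos π (x' z) (D y z) = i := by
      rw [V'.hD z hz hzy]; exact σ'.hpos z (V'.hf z hz hzy)
    rw [e1, e2]
  rcases V.hcase with hc | ⟨hu, hcg, hu2, hu3, hall⟩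
  · rcases V'.hcase with hc' | ⟨hu', hcg', hu2', hu3', hall'⟩
    · rw [← hc, ← hc']
    · exfalso
      -- y = c, y = u1'
      have hz2 := V.hf y2 V.hy2 V.hne2
      have hz2' := V'.hf y2 V.hy2 V.hne2
      have hxx := hx y2 V.hy2 V.hne2
      have hyne : y2 ≠ u1' := by rw [← hu']; exact V.hne2
      apply σ'.hiso y2 hz2' hyne
      rw [← hxx, ← hu', mem_Z_D]
      have q1 := σ'.hexact y2 hz2' (firstDiff c' y)
      have q2 := σ.hexact y2 hz2 (firstDiff c' y)
      rw [← hxx] at q1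
      rw [← hc] at q2
      rw [← q1, q2]
  · rcases V'.hcase with hc' | ⟨hu', hcg', hu2', hu3', hall'⟩
    · exfalso
      have hz2 := V.hf y2 V.hy2 V.hne2
      have hz2' := V'.hf y2 V.hy2 V.hne2
      have hxx := hx y2 V.hy2 V.hne2
      have hyne : y2 ≠ u1 := by rw [← hu]; exact V.hne2
      apply σ.hiso y2 hz2 hyne
      rw [hxx, ← hu, mem_Z_D]
      have q1 := σ'.hexact y2 hz2' (firstDiff c y)
      have q2 := σ.hexact y2 hz2 (firstDiff c y)
      rw [hxx] at q2
      rw [← hc'] at q1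
      rw [← q2, q1]
    · -- both type C
      have hxu : x y = x' y := by
        have e1 := σ.hγ
        have e2 := σ'.hγ
        rw [← hu2, ← hu3, ← hu, ← V.hD y2 V.hy2 V.hne2, ← V.hD y3 V.hy3 V.hne3] at e1
        rw [← hu2', ← hu3', ← hu', ← V'.hD y2 V.hy2 V.hne2, ← V'.hD y3 V.hy3 V.hne3] at e2
        rw [← e1, ← e2]
      have hgf : ∀ z ∈ g, z ∈ f := by
        intro z hz
        by_cases e : z = y
        · rw [e, hu]; exact σ.h1
        · exact V.hf z hz e
      have hgf' : ∀ z ∈ g, z ∈ f' := by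
        intro z hz
        by_cases e : z = y
        · rw [e, hu']; exact σ'.h1
        · exact V'.hf z hz e
      have hxall : ∀ z ∈ g, x z = x' z := by
        intro z hz
        by_cases e : z = y
        · rw [e]; exact hxu
        · exact hx z hz e
      funext v
      apply hM (c v) (c' v) (g.image x)
      · rw [Finset.card_image_of_injOn, hgc]
        intro a ha b hb hab
        exact σ.hxinj a (hgf a ha) b (hgf b hb) hab
      · intro w hw
        obtain ⟨z, hz, rfl⟩ := Finset.mem_image.1 hw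
        have q1 := σ.hexact z (hgf z hz) v
        have q2 := σ'.hexact z (hgf' z hz) v
        rw [← hxall z hz] at q2
        rw [← q1, q2]

end

end Pool.Agent.Helper660.TP
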