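import Mathlib

set_option autoImplicit false

namespace Pool.Agent.Helper660.TP

open PiNat Classical

/-- the branching levels of `c` in `Y` -/
noncomputable def lvl {B : Type} (Y : Finset (ℕ → B)) (c : ℕ → B) : Finset ℕ :=
  (Y.erase c).image (firstDiff c)

theorem levels_bound {B : Type} [Fintype B] (R : ℕ) : ∀ Y : Finset (ℕ → B),
    (Y.filter (fun c => (lvl Y c).card < R)).card ≤ Fintype.card B ^ R := by
  induction R with
  | zero => intro Y; simp
  | succ R ih =>
    intro Y
    by_cases hY : Y.card ≤ 1
    · rcases Nat.lt_or_ge Y.card 1 with h0 | h1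
      · have : Y = ∅ := by rw [← Finset.card_eq_zero]; omega
        subst this; simp
      · have hne : Y.Nonempty := by rw [← Finset.card_pos]; omega
        obtain ⟨c, hc⟩ := hne
        have : 0 < Fintype.card B := Fintype.card_pos_iff.2 ⟨c 0⟩
        calc _ ≤ Y.card := Finset.card_filter_le _ _
          _ ≤ 1 := hY
          _ ≤ _ := Nat.one_le_pow _ _ this
    · -- first splitting level
      push Not at hY
      obtain ⟨a, ha, b, hb, hab⟩ := Finset.one_lt_card.1 hY
      have hex : ∃ v, ∃ a ∈ Y, ∃ b ∈ Y, a ≠ b ∧ firstDiff a b = v := ⟨_, a, ha, b, hb, hab, rfl⟩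
      obtain ⟨a0, ha0, b0, hb0, hab0, hv0⟩ := Nat.find_spec hex
      set v := Nat.find hex with hv
      have hmin : ∀ c ∈ Y, ∀ u ∈ Y, c ≠ u → v ≤ firstDiff c u := by
        intro c hc u hu hcu
        exact Nat.find_min' hex ⟨c, hc, u, hu, hcu, rfl⟩
      -- every point sees level v
      have hsee : ∀ c ∈ Y, v ∈ lvl Y c := by
        intro c hc
        have hne : a0 v ≠ b0 v := by rw [← hv0]; exact apply_firstDiff_ne hab0
        have : ∃ u ∈ Y, u v ≠ c v := by
          by_cases h : a0 v = c v
          · exact ⟨b0, hb0, fun e => hne (h.trans e.symm)⟩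
          · exact ⟨a0, ha0, h⟩
        obtain ⟨u, hu, huc⟩ := this
        have hcu : c ≠ u := by rintro rfl; exact huc rfl
        have h1 := hmin c hc u hu hcu
        have h2 : ¬ v < firstDiff c u := fun h => huc (apply_eq_of_lt_firstDiff h).symm
        unfold lvl
        refine Finset.mem_image.2 ⟨u, Finset.mem_erase.2 ⟨fun e => hcu e.symm, hu⟩, by omega⟩
      have hsub : ∀ c ∈ Y, (lvl (Y.filter (fun u => u v = c v)) c).card < (lvl Y c).card := by
        intro c hc
        apply Finset.card_lt_card
        rw [Finset.ssubset_iff_of_subset]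
        · refine ⟨v, hsee c hc, ?_⟩
          unfold lvl
          intro hmem
          obtain ⟨u, hu, huv⟩ := Finset.mem_image.1 hmem
          rw [Finset.mem_erase, Finset.mem_filter] at hu
          apply apply_firstDiff_ne (fun e => hu.1 e.symm : c ≠ u)
          rw [huv]; exact hu.2.2.symm
        · unfold lvl
          apply Finset.image_subset_image
          apply Finset.erase_subset_erase
          exact Finset.filter_subset _ _
      set T := Y.filter (fun c => (lvl Y c).card < R + 1) with hT
      have h1 : T.card ≤ Fintype.card B ^ R * (T.image (fun c => c v)).card := by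
        apply Finset.card_le_mul_card_image
        intro b hb
        refine le_trans (Finset.card_le_card ?_) (ih (Y.filter (fun u => u v = b)))
        intro c hc
        rw [Finset.mem_filter, hT, Finset.mem_filter] at hc
        obtain ⟨⟨hcY, hcl⟩, hcb⟩ := hc
        rw [Finset.mem_filter, Finset.mem_filter]
        have := hsub c hcY
        rw [hcb] at this
        exact ⟨⟨hcY, hcb⟩, by omega⟩
      calc T.card ≤ Fintype.card B ^ R * (T.image (fun c => c v)).card := h1
        _ ≤ Fintype.card B ^ R * Fintype.card B := Nat.mul_le_mul_left _ (Finset.card_le_univ _)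
        _ = _ := (pow_succ _ _).symm

/-- the class of `c` in direction `x` inside `S` -/
noncomputable def cls {B F A : Type} (π : F → B → A) (S : Finset (ℕ → B)) (x : F)
    (c : ℕ → B) : Finset (ℕ → B) := S.filter (fun u => ∀ v, π x (u v) = π x (c v))

theorem good_point {B F A : Type} [Fintype B] [Fintype F] [Fintype A] (π : F → B → A)
    (S : Finset (ℕ → B)) (m : ℕ) (hS : ∀ a ∈ S, ∀ b ∈ S, ∀ v, m ≤ v → a v = b v)
    (R : ℕ)
    (hcard : Fintype.card F * (Fintype.card B ^ R * Fintype.card A ^ m) < S.card) :
    ∃ c ∈ S, ∀ x, R ≤ (lvl (cls π S x c) c).card := by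
  by_contra hcon
  push Not at hcon
  have hbad : ∀ x : F, (S.filter (fun c => (lvl (cls π S x c) c).card < R)).card
      ≤ Fintype.card B ^ R * Fintype.card A ^ m := by
    intro x
    set T := S.filter (fun c => (lvl (cls π S x c) c).card < R) with hT
    have h1 : T.card ≤ Fintype.card B ^ R *
        (T.image (fun c => (fun v : Fin m => π x (c v)))).card := by
      apply Finset.card_le_mul_card_image
      intro k hk
      refine le_trans (Finset.card_le_card ?_)
        (levels_bound R (S.filter (fun u => (fun v : Fin m => π x (u v)) = k)))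
      intro c hc
      rw [Finset.mem_filter, hT, Finset.mem_filter] at hc
      obtain ⟨⟨hcS, hcl⟩, hck⟩ := hc
      have heq : cls π S x c = S.filter (fun u => (fun v : Fin m => π x (u v)) = k) := by
        unfold cls
        apply Finset.filter_congr
        intro u hu
        constructor
        · intro h
          rw [← hck]; funext v; exact h v
        · intro h v
          by_cases hv : v < m
          · have h2 := congrFun (h.trans hck.symm) ⟨v, hv⟩
            exact h2
          · rw [hS u hu c hcS v (by omega)]
      rw [Finset.mem_filter]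
      rw [heq] at hcl
      exact ⟨by rw [Finset.mem_filter]; exact ⟨hcS, hck⟩, hcl⟩
    calc T.card ≤ _ := h1
      _ ≤ Fintype.card B ^ R * Fintype.card (Fin m → A) :=
        Nat.mul_le_mul_left _ (Finset.card_le_univ _)
      _ = _ := by rw [Fintype.card_fun, Fintype.card_fin]
  have hcov : S ⊆ Finset.univ.biUnion
      (fun x : F => S.filter (fun c => (lvl (cls π S x c) c).card < R)) := by
    intro c hc
    obtain ⟨x, hx⟩ := hcon c hc
    rw [Finset.mem_biUnion]
    exact ⟨x, Finset.mem_univ _, by rw [Finset.mem_filter]; exact ⟨hc, hx⟩⟩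
  have h2 := Finset.card_le_card hcov
  have h3 : (Finset.univ.biUnion
      (fun x : F => S.filter (fun c => (lvl (cls π S x c) c).card < R))).card
      ≤ Fintype.card F * (Fintype.card B ^ R * Fintype.card A ^ m) := by
    have := Finset.card_biUnion_le_card_mul Finset.univ
      (fun x : F => S.filter (fun c => (lvl (cls π S x c) c).card < R)) _ (fun x _ => hbad x)
    simpa [Finset.card_univ] using this
  omega

/-- a point with mates in all directions at distinct levels -/
theorem exists_mates {B F A : Type} [Fintype B] [Fintype F] [Fintype A] (π : F → B → A)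
    (S : Finset (ℕ → B)) (m : ℕ) (hS : ∀ a ∈ S, ∀ b ∈ S, ∀ v, m ≤ v → a v = b v)
    (hcard : Fintype.card F * (Fintype.card B ^ (Fintype.card F) * Fintype.card A ^ m) < S.card) :
    ∃ c ∈ S, ∃ u : F → (ℕ → B), (∀ x, u x ∈ S) ∧ (∀ x, u x ≠ c) ∧
      (∀ x v, π x (u x v) = π x (c v)) ∧
      Function.Injective (fun x => firstDiff c (u x)) := by
  obtain ⟨c, hc, hR⟩ := good_point π S m hS (Fintype.card F) hcard
  obtain ⟨f, hf, hmem⟩ := (Finset.all_card_le_biUnion_card_iff_exists_injective
    (fun x : F => lvl (cls π S x c) c)).1 (by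
      intro s
      rcases s.eq_empty_or_nonempty with h | ⟨x, hx⟩
      · subst h; simp
      · calc s.card ≤ Fintype.card F := Finset.card_le_univ _
          _ ≤ (lvl (cls π S x c) c).card := hR x
          _ ≤ _ := Finset.card_le_card (Finset.subset_biUnion_of_mem
            (fun x : F => lvl (cls π S x c) c) hx))
  have : ∀ x, ∃ u ∈ S, u ≠ c ∧ (∀ v, π x (u v) = π x (c v)) ∧ firstDiff c u = f x := by
    intro x
    have := hmem x
    unfold lvl cls at this
    obtain ⟨u, hu, hfu⟩ := Finset.mem_image.1 this
    rw [Finset.mem_erase, Finset.mem_filter] at hu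
    exact ⟨u, hu.2.1, hu.1, hu.2.2, hfu⟩
  choose u hu1 hu2 hu3 hu4 using this
  refine ⟨c, hc, u, hu1, hu2, hu3, ?_⟩
  intro x y hxy
  simp only [hu4] at hxy
  exact hf hxy

end Pool.Agent.Helper660.TP
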