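import Mathlib

set_option autoImplicit false

namespace Pool.Agent.Helper660.TP

open Classical

theorem union_bound {ι L W : Type} [Fintype ι] [Fintype L] [Fintype W] [Nonempty L]
    (N1 a : ℕ) (S : W → Finset ι) (T : W → ι → Finset L)
    (hS : ∀ w, (S w).card = N1) (hT : ∀ w, ∀ p ∈ S w, (T w p).card ≤ a)
    (hN : Fintype.card W * a ^ N1 < Fintype.card L ^ N1) :
    ∃ γ : ι → L, ∀ w, ∃ p ∈ S w, γ p ∉ T w p := by
  by_contra hcon
  push Not at hcon
  -- every function lies in some box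
  set Bx : W → Finset (ι → L) := fun w =>
    Fintype.piFinset (fun p => if p ∈ S w then T w p else Finset.univ) with hBx
  have hcov : (Finset.univ : Finset (ι → L)) ⊆ Finset.univ.biUnion Bx := by
    intro γ _
    obtain ⟨w, hw⟩ := hcon γ
    rw [Finset.mem_biUnion]
    refine ⟨w, Finset.mem_univ _, ?_⟩
    simp only [hBx, Fintype.mem_piFinset]
    intro p
    by_cases hp : p ∈ S w
    · simp only [hp, if_true]; exact hw p hp
    · simp [hp]
  have hbox : ∀ w, (Bx w).card ≤ a ^ N1 * Fintype.card L ^ (Fintype.card ι - N1) := by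
    intro w
    simp only [hBx, Fintype.card_piFinset]
    rw [← Finset.prod_mul_prod_compl (S w)]
    have h1 : ∏ p ∈ S w, (if p ∈ S w then T w p else Finset.univ).card ≤ a ^ N1 := by
      calc _ ≤ ∏ _p ∈ S w, a := by
            apply Finset.prod_le_prod'
            intro p hp
            simp only [hp, if_true]
            exact hT w p hp
        _ = a ^ N1 := by rw [Finset.prod_const, hS]
    have h2 : ∏ p ∈ (S w)ᶜ, (if p ∈ S w then T w p else Finset.univ).card
        = Fintype.card L ^ (Fintype.card ι - N1) := by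
      have : ∏ p ∈ (S w)ᶜ, (if p ∈ S w then T w p else Finset.univ).card
          = ∏ _p ∈ (S w)ᶜ, Fintype.card L := by
        apply Finset.prod_congr rfl
        intro p hp
        rw [Finset.mem_compl] at hp
        simp only [hp, if_false, Finset.card_univ]
      rw [this, Finset.prod_const, Finset.card_compl, hS]
    rw [h2]
    exact Nat.mul_le_mul_right _ h1
  have hW : Nonempty W := ⟨(hcon (fun _ => Classical.arbitrary L)).choose⟩
  obtain ⟨w0⟩ := hW
  have hN1 : N1 ≤ Fintype.card ι := by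
    rw [← hS w0]; exact Finset.card_le_univ _
  have h3 := Finset.card_le_card hcov
  have h4 := Finset.card_biUnion_le_card_mul Finset.univ Bx _ (fun w _ => hbox w)
  rw [Finset.card_univ, Fintype.card_fun] at h3
  rw [Finset.card_univ] at h4
  have hLpos : 0 < Fintype.card L := Fintype.card_pos
  have h5 : Fintype.card L ^ Fintype.card ι
      = Fintype.card L ^ N1 * Fintype.card L ^ (Fintype.card ι - N1) := by
    rw [← pow_add]; congr 1; omega
  have h6 : Fintype.card L ^ N1 * Fintype.card L ^ (Fintype.card ι - N1)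
      ≤ Fintype.card W * a ^ N1 * Fintype.card L ^ (Fintype.card ι - N1) := by
    rw [← h5, mul_assoc]
    exact h3.trans h4
  have h7 := Nat.le_of_mul_le_mul_right h6 (Nat.pow_pos hLpos)
  omega

/-- the colouring of pairs of data: every two `s`-sets see every colour between them -/
theorem exists_chi {E : Type} [Fintype E] (r s : ℕ) (hr : 0 < r)
    (hs : Fintype.card E ^ (2 * s) * r * (r - 1) ^ (s * s) < r ^ (s * s)) :
    ∃ χ : E × E → Fin r, ∀ A B : Finset E, A.card = s → B.card = s → ∀ i,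
      ∃ a ∈ A, ∃ b ∈ B, χ (a, b) = i := by
  have : Nonempty (Fin r) := ⟨⟨0, hr⟩⟩
  let W := {A : Finset E // A.card = s} × {A : Finset E // A.card = s} × Fin r
  have hWc : Fintype.card W ≤ Fintype.card E ^ (2 * s) * r := by
    have h1 : Fintype.card {A : Finset E // A.card = s} ≤ Fintype.card E ^ s := by
      rw [Fintype.card_finset_len]
      exact Nat.choose_le_pow _ _
    calc Fintype.card W = Fintype.card {A : Finset E // A.card = s} *
          (Fintype.card {A : Finset E // A.card = s} * r) := by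
            simp only [W, Fintype.card_prod, Fintype.card_fin]
      _ ≤ Fintype.card E ^ s * (Fintype.card E ^ s * r) := by gcongr
      _ = _ := by ring
  obtain ⟨χ, hχ⟩ := union_bound (ι := E × E) (L := Fin r) (W := W) (s * s) (r - 1)
    (fun w => w.1.1 ×ˢ w.2.1.1) (fun w _ => Finset.univ.erase w.2.2)
    (by intro w; rw [Finset.card_product, w.1.2, w.2.1.2])
    (by intro w p _; rw [Finset.card_erase_of_mem (Finset.mem_univ _), Finset.card_univ,
          Fintype.card_fin])
    (by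
      rw [Fintype.card_fin]
      calc _ ≤ Fintype.card E ^ (2 * s) * r * (r - 1) ^ (s * s) := by gcongr
        _ < _ := hs)
  refine ⟨χ, ?_⟩
  intro A B hA hB i
  obtain ⟨p, hp, hnot⟩ := hχ (⟨A, hA⟩, ⟨B, hB⟩, i)
  simp only [Finset.mem_erase, Finset.mem_univ, and_true, not_not] at hnot
  rw [Finset.mem_product] at hp
  exact ⟨p.1, hp.1, p.2, hp.2, hnot⟩

section
variable {E F : Type} [Fintype E] [Fintype F] {r s : ℕ} {χ : E × E → Fin r}

theorem few_bad (hχ : ∀ A B : Finset E, A.card = s → B.card = s → ∀ i,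
      ∃ a ∈ A, ∃ b ∈ B, χ (a, b) = i) (f : F → E) (X Y : Finset F)
    (hX : Set.InjOn f X) (hY : Set.InjOn f Y) (hYc : s * s + s ≤ Y.card) (i : Fin r) :
    (X.filter (fun x => (Y.filter (fun y => χ (f x, f y) = i)).card < s)).card < s := by
  by_contra hcon
  push Not at hcon
  obtain ⟨X0, hX0, hX0c⟩ := Finset.exists_subset_card_eq hcon
  set U := X0.biUnion (fun x => Y.filter (fun y => χ (f x, f y) = i)) with hU
  have hUc : U.card ≤ s * s := by
    have := Finset.card_biUnion_le_card_mul X0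
      (fun x => Y.filter (fun y => χ (f x, f y) = i)) s (by
        intro x hx
        have := hX0 hx
        rw [Finset.mem_filter] at this
        exact this.2.le)
    rw [hX0c] at this
    exact this
  have hd : s ≤ (Y \ U).card := by
    have := Finset.le_card_sdiff U Y
    omega
  obtain ⟨Y0, hY0, hY0c⟩ := Finset.exists_subset_card_eq hd
  have hX0X : ∀ x ∈ X0, x ∈ X := fun x hx => (Finset.mem_filter.1 (hX0 hx)).1
  have hY0Y : ∀ y ∈ Y0, y ∈ Y := fun y hy => (Finset.mem_sdiff.1 (hY0 hy)).1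
  obtain ⟨a, ha, b, hb, hab⟩ := hχ (X0.image f) (Y0.image f)
    (by rw [Finset.card_image_of_injOn, hX0c]
        intro x hx y hy h; exact hX (hX0X x hx) (hX0X y hy) h)
    (by rw [Finset.card_image_of_injOn, hY0c]
        intro x hx y hy h; exact hY (hY0Y x hx) (hY0Y y hy) h) i
  obtain ⟨x, hx, rfl⟩ := Finset.mem_image.1 ha
  obtain ⟨y, hy, rfl⟩ := Finset.mem_image.1 hb
  have h1 := Finset.mem_sdiff.1 (hY0 hy)
  apply h1.2
  rw [hU, Finset.mem_biUnion]
  exact ⟨x, hx, Finset.mem_filter.2 ⟨h1.1, hab⟩⟩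

/-- common roots of a pair -/
noncomputable def roots (χ : E × E → Fin r) (f : F → E) (P : Finset F) (i : Fin r) (y w : F) :
    Finset F :=
  P.filter (fun x => χ (f x, f y) = i ∧ χ (f x, f w) = i ∧ χ (f y, f w) = i)

theorem good_pair_in (hs : 0 < s) (hχ : ∀ A B : Finset E, A.card = s → B.card = s → ∀ i,
      ∃ a ∈ A, ∃ b ∈ B, χ (a, b) = i) (f : F → E) (P Y W : Finset F)
    (hP : Set.InjOn f P) (hY : Set.InjOn f Y) (hW : Set.InjOn f W)
    (hYc : Y.card = s * s + s) (hWc : W.card = s * s + s) (i : Fin r) (h : ℕ)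
    (hPc : h * (s * s + s) ^ 2 + 2 * s ≤ P.card) :
    ∃ y ∈ Y, ∃ w ∈ W, h ≤ (roots χ f P i y w).card := by
  by_contra hcon
  push Not at hcon
  have b1 := few_bad hχ f P Y hP hY hYc.ge i
  have b2 := few_bad hχ f P W hP hW hWc.ge i
  set B1 := P.filter (fun x => (Y.filter (fun y => χ (f x, f y) = i)).card < s)
  set B2 := P.filter (fun x => (W.filter (fun y => χ (f x, f y) = i)).card < s)
  -- all other points of P are roots of some pair
  have hcov : P \ (B1 ∪ B2) ⊆ (Y ×ˢ W).biUnion (fun p => roots χ f P i p.1 p.2) := by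
    intro x hx
    rw [Finset.mem_sdiff, Finset.mem_union, not_or] at hx
    obtain ⟨hxP, hx1, hx2⟩ := hx
    simp only [B1, B2, Finset.mem_filter, hxP, true_and, not_lt] at hx1 hx2
    obtain ⟨Y0, hY0, hY0c⟩ := Finset.exists_subset_card_eq hx1
    obtain ⟨W0, hW0, hW0c⟩ := Finset.exists_subset_card_eq hx2
    obtain ⟨a, ha, b, hb, hab⟩ := hχ (Y0.image f) (W0.image f)
      (by rw [Finset.card_image_of_injOn, hY0c]
          intro x hx y hy h
          exact hY (Finset.mem_filter.1 (hY0 hx)).1 (Finset.mem_filter.1 (hY0 hy)).1 h)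
      (by rw [Finset.card_image_of_injOn, hW0c]
          intro x hx y hy h
          exact hW (Finset.mem_filter.1 (hW0 hx)).1 (Finset.mem_filter.1 (hW0 hy)).1 h) i
    obtain ⟨y, hy, rfl⟩ := Finset.mem_image.1 ha
    obtain ⟨w, hw, rfl⟩ := Finset.mem_image.1 hb
    have hy' := Finset.mem_filter.1 (hY0 hy)
    have hw' := Finset.mem_filter.1 (hW0 hw)
    rw [Finset.mem_biUnion]
    refine ⟨(y, w), Finset.mem_product.2 ⟨hy'.1, hw'.1⟩, ?_⟩
    unfold roots
    rw [Finset.mem_filter]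
    exact ⟨hxP, hy'.2, hw'.2, hab⟩
  have c1 := Finset.card_le_card hcov
  have c2 : ((Y ×ˢ W).biUnion (fun p => roots χ f P i p.1 p.2)).card
      ≤ (s * s + s) * (s * s + s) * (h - 1) := by
    have := Finset.card_biUnion_le_card_mul (Y ×ˢ W) (fun p => roots χ f P i p.1 p.2) (h - 1) (by
      intro p hp
      rw [Finset.mem_product] at hp
      have := hcon p.1 hp.1 p.2 hp.2
      omega)
    rwa [Finset.card_product, hYc, hWc] at this
  have c3 : P.card - (B1 ∪ B2).card ≤ (P \ (B1 ∪ B2)).card := Finset.le_card_sdiff _ _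
  have c4 : (B1 ∪ B2).card ≤ B1.card + B2.card := Finset.card_union_le _ _
  have hpos : 0 < h := by
    by_contra h0
    have h00 : h = 0 := by omega
    have hYne : Y.Nonempty := by rw [← Finset.card_pos]; omega
    have hWne : W.Nonempty := by rw [← Finset.card_pos]; omega
    obtain ⟨y, hy⟩ := hYne
    obtain ⟨w, hw⟩ := hWne
    have := hcon y hy w hw
    omega
  have c5 : (s * s + s) * (s * s + s) * (h - 1) < h * (s * s + s) ^ 2 := by
    have : h * (s * s + s) ^ 2 = (s * s + s) * (s * s + s) * (h - 1) + (s * s + s) ^ 2 := by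
      obtain ⟨h', rfl⟩ : ∃ h', h = h' + 1 := ⟨h - 1, by omega⟩
      simp only [Nat.add_sub_cancel]; ring
    have : 0 < (s * s + s) ^ 2 := by positivity
    omega
  omega

/-- many good pairs -/
theorem many_good (hs : 0 < s) (hχ : ∀ A B : Finset E, A.card = s → B.card = s → ∀ i,
      ∃ a ∈ A, ∃ b ∈ B, χ (a, b) = i) (f : F → E) (P Q1 Q2 : Finset F)
    (hP : Set.InjOn f P) (hQ1 : Set.InjOn f Q1) (hQ2 : Set.InjOn f Q2) (i : Fin r) (h : ℕ)
    (hPc : P.card = (s * s + s) ^ 2 * (h + 1)) (hQ1c : Q1.card = (s * s + s) ^ 2 * (h + 1))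
    (hQ2c : Q2.card = (s * s + s) ^ 2 * (h + 1)) :
    ∃ G : Finset (F × F), G ⊆ Q1 ×ˢ Q2 ∧ G.card = (s * s + s) ^ 3 * h ^ 2 ∧
      ∀ p ∈ G, h ≤ (roots χ f P i p.1 p.2).card := by
  set t := s * s + s with ht
  have htpos : 0 < t := by positivity
  have h2s : 2 * s ≤ t ^ 2 := by
    have h1 : 2 * s ≤ 2 * t := by omega
    have h2 : 2 ≤ t := by
      have : 1 ≤ s * s := Nat.mul_pos hs hs
      omega
    calc 2 * s ≤ 2 * t := h1
      _ ≤ t * t := Nat.mul_le_mul_right _ h2
      _ = t ^ 2 := by ring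
  -- good neighbours
  set N : F → Finset F := fun y => Q2.filter (fun w => h ≤ (roots χ f P i y w).card) with hN
  set Ybad := Q1.filter (fun y => (N y).card < t * h) with hYbad
  have hb : Ybad.card < t := by
    by_contra hcon
    push Not at hcon
    obtain ⟨Y0, hY0, hY0c⟩ := Finset.exists_subset_card_eq hcon
    have hUc : (Y0.biUnion N).card ≤ t * (t * h) := by
      have := Finset.card_biUnion_le_card_mul Y0 N (t * h) (by
        intro y hy
        exact (Finset.mem_filter.1 (hY0 hy)).2.le)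
      rwa [hY0c] at this
    have hd : t ≤ (Q2 \ Y0.biUnion N).card := by
      have h1 := Finset.le_card_sdiff (Y0.biUnion N) Q2
      have h2 : Q2.card = t * (t * h) + t ^ 2 := by rw [hQ2c]; ring
      have h3 : t ≤ t ^ 2 := by nlinarith
      omega
    obtain ⟨W0, hW0, hW0c⟩ := Finset.exists_subset_card_eq hd
    have hY0Q : ∀ y ∈ Y0, y ∈ Q1 := fun y hy => (Finset.mem_filter.1 (hY0 hy)).1
    have hW0Q : ∀ y ∈ W0, y ∈ Q2 := fun y hy => (Finset.mem_sdiff.1 (hW0 hy)).1
    obtain ⟨y, hy, w, hw, hyw⟩ := good_pair_in hs hχ f P Y0 W0 hP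
      (fun a ha b hb h => hQ1 (hY0Q a ha) (hY0Q b hb) h)
      (fun a ha b hb h => hQ2 (hW0Q a ha) (hW0Q b hb) h) hY0c hW0c i h (by
        rw [hPc, ← ht]
        have : t ^ 2 * (h + 1) = h * t ^ 2 + t ^ 2 := by ring
        omega)
    apply (Finset.mem_sdiff.1 (hW0 hw)).2
    rw [Finset.mem_biUnion]
    exact ⟨y, hy, Finset.mem_filter.2 ⟨hW0Q w hw, hyw⟩⟩
  set G0 := (Q1 ×ˢ Q2).filter (fun p => h ≤ (roots χ f P i p.1 p.2).card) with hG0
  have hG0c : t ^ 3 * h ^ 2 ≤ G0.card := by
    have h1 : ∑ y ∈ Q1, (N y).card ≤ G0.card := by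
      have : G0 = Q1.biUnion (fun y => (N y).image (fun w => (y, w))) := by
        ext ⟨y, w⟩
        simp only [hG0, hN, Finset.mem_filter, Finset.mem_product, Finset.mem_biUnion,
          Finset.mem_image, Prod.mk.injEq]
        constructor
        · rintro ⟨⟨h1, h2⟩, h3⟩
          exact ⟨y, h1, w, ⟨h2, h3⟩, rfl, rfl⟩
        · rintro ⟨y', h1, w', ⟨h2, h3⟩, rfl, rfl⟩
          exact ⟨⟨h1, h2⟩, h3⟩
      rw [this, Finset.card_biUnion]
      · apply le_of_eq
        apply Finset.sum_congr rfl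
        intro y _
        rw [Finset.card_image_of_injective]
        intro a b hab
        exact (Prod.mk.injEq _ _ _ _ ▸ hab : y = y ∧ a = b).2
      · intro y _ y' _ hne
        rw [Function.onFun, Finset.disjoint_left]
        intro p hp hp'
        obtain ⟨_, _, rfl⟩ := Finset.mem_image.1 hp
        obtain ⟨_, _, h2⟩ := Finset.mem_image.1 hp'
        exact hne (congrArg Prod.fst h2).symm
    have h2 : ∑ _y ∈ Q1 \ Ybad, t * h ≤ ∑ y ∈ Q1, (N y).card := by
      calc _ ≤ ∑ y ∈ Q1 \ Ybad, (N y).card := by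
            apply Finset.sum_le_sum
            intro y hy
            rw [Finset.mem_sdiff, hYbad, Finset.mem_filter] at hy
            have := hy.2
            simp only [hy.1, true_and, not_lt] at this
            exact this
        _ ≤ _ := Finset.sum_le_sum_of_subset Finset.sdiff_subset
    rw [Finset.sum_const, smul_eq_mul] at h2
    have h3 : t ^ 2 * h ≤ (Q1 \ Ybad).card := by
      have := Finset.le_card_sdiff Ybad Q1
      have h4 : Q1.card = t ^ 2 * h + t ^ 2 := by rw [hQ1c]; ring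
      have h5 : t ≤ t ^ 2 := by nlinarith
      omega
    calc t ^ 3 * h ^ 2 = (t ^ 2 * h) * (t * h) := by ring
      _ ≤ (Q1 \ Ybad).card * (t * h) := Nat.mul_le_mul_right _ h3
      _ ≤ _ := h2.trans h1
  obtain ⟨G, hG, hGc⟩ := Finset.exists_subset_card_eq hG0c
  refine ⟨G, fun p hp => (Finset.mem_filter.1 (hG hp)).1, hGc, fun p hp =>
    (Finset.mem_filter.1 (hG hp)).2⟩

end

/-- the root rule -/
theorem exists_gamma {E F : Type} [Fintype E] [Fintype F] [Nonempty F] {r s h : ℕ}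
    (hs : 0 < s) (χ : E × E → Fin r)
    (hχ : ∀ A B : Finset E, A.card = s → B.card = s → ∀ i, ∃ a ∈ A, ∃ b ∈ B, χ (a, b) = i)
    (hN : Fintype.card E ^ Fintype.card F * (2 ^ Fintype.card F) ^ 3 * r *
      (Fintype.card F - h) ^ ((s * s + s) ^ 3 * h ^ 2)
      < Fintype.card F ^ ((s * s + s) ^ 3 * h ^ 2)) :
    ∃ γ : E × E → F, ∀ (f : F → E) (P Q1 Q2 : Finset F),
      Set.InjOn f P → Set.InjOn f Q1 → Set.InjOn f Q2 →
      P.card = (s * s + s) ^ 2 * (h + 1) → Q1.card = (s * s + s) ^ 2 * (h + 1) →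
      Q2.card = (s * s + s) ^ 2 * (h + 1) → ∀ i : Fin r,
      ∃ x ∈ P, ∃ y ∈ Q1, ∃ w ∈ Q2, χ (f x, f y) = i ∧ χ (f x, f w) = i ∧ χ (f y, f w) = i ∧
        γ (f y, f w) = x := by
  let Adv := (F → E) × Finset F × Finset F × Finset F × Fin r
  let ok : Adv → Prop := fun w => Set.InjOn w.1 w.2.1 ∧ Set.InjOn w.1 w.2.2.1 ∧
    Set.InjOn w.1 w.2.2.2.1 ∧ w.2.1.card = (s * s + s) ^ 2 * (h + 1) ∧
    w.2.2.1.card = (s * s + s) ^ 2 * (h + 1) ∧ w.2.2.2.1.card = (s * s + s) ^ 2 * (h + 1)
  let W := {w : Adv // ok w}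
  have hWc : Fintype.card W ≤ Fintype.card E ^ Fintype.card F * (2 ^ Fintype.card F) ^ 3 * r := by
    calc Fintype.card W ≤ Fintype.card Adv := Fintype.card_subtype_le _
      _ = _ := by
        simp only [Adv, Fintype.card_prod, Fintype.card_fun, Fintype.card_finset, Fintype.card_fin]
        ring
  have hG : ∀ w : W, ∃ G : Finset (F × F), G ⊆ w.1.2.2.1 ×ˢ w.1.2.2.2.1 ∧
      G.card = (s * s + s) ^ 3 * h ^ 2 ∧
      ∀ p ∈ G, h ≤ (roots χ w.1.1 w.1.2.1 w.1.2.2.2.2 p.1 p.2).card := by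
    rintro ⟨⟨f, P, Q1, Q2, i⟩, h1, h2, h3, h4, h5, h6⟩
    exact many_good hs hχ f P Q1 Q2 h1 h2 h3 i h h4 h5 h6
  choose G hG1 hG2 hG3 using hG
  have hinj : ∀ w : W, Set.InjOn (fun p : F × F => (w.1.1 p.1, w.1.1 p.2)) (G w : Set (F × F)) := by
    intro w p hp q hq hpq
    have hp' := Finset.mem_product.1 (hG1 w hp)
    have hq' := Finset.mem_product.1 (hG1 w hq)
    obtain ⟨-, k2, k3, -⟩ := w.2
    have e1 : w.1.1 p.1 = w.1.1 q.1 := congrArg Prod.fst hpq
    have e2 : w.1.1 p.2 = w.1.1 q.2 := congrArg Prod.snd hpq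
    exact Prod.ext (k2 hp'.1 hq'.1 e1) (k3 hp'.2 hq'.2 e2)
  -- labels to avoid at a data pair
  let T : W → E × E → Finset F := fun w q =>
    Finset.univ.filter (fun x => ∀ p ∈ G w, (w.1.1 p.1, w.1.1 p.2) = q →
      x ∉ roots χ w.1.1 w.1.2.1 w.1.2.2.2.2 p.1 p.2)
  obtain ⟨γ, hγ⟩ := union_bound (ι := E × E) (L := F) (W := W) ((s * s + s) ^ 3 * h ^ 2)
    (Fintype.card F - h)
    (fun w => (G w).image (fun p : F × F => (w.1.1 p.1, w.1.1 p.2))) T
    (by intro w; rw [Finset.card_image_of_injOn (hinj w), hG2])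
    (by
      intro w q hq
      obtain ⟨p, hp, rfl⟩ := Finset.mem_image.1 hq
      have h1 : T w (w.1.1 p.1, w.1.1 p.2) ⊆
          Finset.univ \ roots χ w.1.1 w.1.2.1 w.1.2.2.2.2 p.1 p.2 := by
        intro x hx
        rw [Finset.mem_sdiff]
        exact ⟨Finset.mem_univ _, (Finset.mem_filter.1 hx).2 p hp rfl⟩
      have h2 := Finset.card_le_card h1
      rw [Finset.card_sdiff_of_subset (Finset.subset_univ _), Finset.card_univ] at h2
      have h3 := hG3 w p hp
      omega)
    (by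
      calc _ ≤ Fintype.card E ^ Fintype.card F * (2 ^ Fintype.card F) ^ 3 * r *
            (Fintype.card F - h) ^ ((s * s + s) ^ 3 * h ^ 2) := by gcongr
        _ < _ := hN)
  refine ⟨γ, ?_⟩
  intro f P Q1 Q2 k1 k2 k3 k4 k5 k6 i
  obtain ⟨q, hq, hnot⟩ := hγ ⟨(f, P, Q1, Q2, i), k1, k2, k3, k4, k5, k6⟩
  simp only [T, Finset.mem_filter, Finset.mem_univ, true_and, not_forall, not_not] at hnot
  obtain ⟨p, hp, hpq, hroot⟩ := hnot
  have hp' := Finset.mem_product.1 (hG1 _ hp)
  unfold roots at hroot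
  rw [Finset.mem_filter] at hroot
  refine ⟨γ q, hroot.1, p.1, hp'.1, p.2, hp'.2, hroot.2.1, hroot.2.2.1, hroot.2.2.2, ?_⟩
  rw [hpq]

end Pool.Agent.Helper660.TP
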