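import Mathlib
import Pool.Agent.Helper660.Rule

set_option autoImplicit false

namespace Pool.Agent.Helper660.TP

open Classical

theorem exists_free {F : Type} (k : ℕ) (W : F → Finset F) (hW : ∀ x, (W x).card ≤ k) :
    ∀ M : Finset F, ∃ M' ⊆ M, M.card ≤ (2 * k + 1) * M'.card ∧
      ∀ x ∈ M', ∀ y ∈ M', x ≠ y → y ∉ W x := by
  intro M
  induction M using Finset.strongInduction with
  | _ M ih =>
    rcases M.eq_empty_or_nonempty with h | hne
    · subst h
      exact ⟨∅, Finset.Subset.refl _, by simp, by simp⟩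
    · have hsum : ∑ x ∈ M, ((M.filter (fun y => y ∈ W x)).card +
          (M.filter (fun y => x ∈ W y)).card) ≤ ∑ _x ∈ M, 2 * k := by
        rw [Finset.sum_add_distrib]
        have h1 : ∑ x ∈ M, (M.filter (fun y => y ∈ W x)).card ≤ M.card * k := by
          rw [← smul_eq_mul, ← Finset.sum_const]
          apply Finset.sum_le_sum
          intro x _
          refine le_trans (Finset.card_le_card ?_) (hW x)
          intro y hy
          exact (Finset.mem_filter.1 hy).2
        have h2 : ∑ x ∈ M, (M.filter (fun y => x ∈ W y)).card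
            = ∑ x ∈ M, (M.filter (fun y => y ∈ W x)).card := by
          simp only [Finset.card_filter]
          rw [Finset.sum_comm]
        rw [h2, Finset.sum_const, smul_eq_mul]
        nlinarith
      obtain ⟨x, hx, hxk⟩ := Finset.exists_le_of_sum_le hne hsum
      set R := M.filter (fun y => y = x ∨ y ∈ W x ∨ x ∈ W y) with hR
      have hRc : R.card ≤ 2 * k + 1 := by
        have : R ⊆ {x} ∪ (M.filter (fun y => y ∈ W x) ∪ M.filter (fun y => x ∈ W y)) := by
          intro y hy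
          rw [hR, Finset.mem_filter] at hy
          simp only [Finset.mem_union, Finset.mem_singleton, Finset.mem_filter]
          tauto
        have h1 := Finset.card_le_card this
        have h2 := Finset.card_union_le {x} (M.filter (fun y => y ∈ W x) ∪
          M.filter (fun y => x ∈ W y))
        have h3 := Finset.card_union_le (M.filter (fun y => y ∈ W x))
          (M.filter (fun y => x ∈ W y))
        rw [Finset.card_singleton] at h2
        omega
      have hss : M \ R ⊂ M := by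
        rw [Finset.ssubset_iff_of_subset Finset.sdiff_subset]
        refine ⟨x, hx, ?_⟩
        rw [Finset.mem_sdiff, not_and, not_not]
        intro _
        rw [hR, Finset.mem_filter]
        exact ⟨hx, Or.inl rfl⟩
      obtain ⟨M', hM', hM'c, hfree⟩ := ih (M \ R) hss
      have hxM' : x ∉ M' := by
        intro h
        have := Finset.mem_sdiff.1 (hM' h)
        apply this.2
        rw [hR, Finset.mem_filter]
        exact ⟨hx, Or.inl rfl⟩
      refine ⟨insert x M', ?_, ?_, ?_⟩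
      · intro y hy
        rcases Finset.mem_insert.1 hy with rfl | hy
        · exact hx
        · exact (Finset.mem_sdiff.1 (hM' hy)).1
      · rw [Finset.card_insert_of_notMem hxM']
        have h1 : M.card ≤ (M \ R).card + R.card := by
          have := Finset.le_card_sdiff R M
          omega
        calc M.card ≤ (2 * k + 1) * M'.card + (2 * k + 1) := by omega
          _ = _ := by ring
      · intro a ha b hb hab
        have hnot : ∀ y ∈ M', y ∉ W x ∧ x ∉ W y := by
          intro y hy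
          have h1 := Finset.mem_sdiff.1 (hM' hy)
          have h2 := h1.2
          rw [hR, Finset.mem_filter] at h2
          constructor
          · intro h; exact h2 ⟨h1.1, Or.inr (Or.inl h)⟩
          · intro h; exact h2 ⟨h1.1, Or.inr (Or.inr h)⟩
        rcases Finset.mem_insert.1 ha with ha' | ha'
        · rcases Finset.mem_insert.1 hb with hb' | hb'
          · exact absurd (ha'.trans hb'.symm) hab
          · rw [ha']; exact (hnot b hb').1
        · rcases Finset.mem_insert.1 hb with hb' | hb'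
          · rw [hb']; exact (hnot a ha').2
          · exact hfree a ha' b hb' hab

theorem exists_top {F : Type} (v : F → ℕ) (s : Finset F) : ∀ a ≤ s.card,
    ∃ A ⊆ s, A.card = a ∧ ∀ x ∈ A, ∀ y ∈ s \ A, v y ≤ v x := by
  intro a
  induction a with
  | zero => intro _; exact ⟨∅, Finset.empty_subset _, rfl, by simp⟩
  | succ a ih =>
    intro ha
    obtain ⟨A, hA, hAc, hAt⟩ := ih (by omega)
    have hne : (s \ A).Nonempty := by
      rw [← Finset.card_pos, Finset.card_sdiff_of_subset hA]; omega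
    obtain ⟨z, hz, hmax⟩ := Finset.exists_max_image (s \ A) v hne
    have hz' := Finset.mem_sdiff.1 hz
    refine ⟨insert z A, ?_, ?_, ?_⟩
    · intro y hy
      rcases Finset.mem_insert.1 hy with rfl | hy
      · exact hz'.1
      · exact hA hy
    · rw [Finset.card_insert_of_notMem hz'.2, hAc]
    · intro x hx y hy
      rw [Finset.mem_sdiff, Finset.mem_insert, not_or] at hy
      have hy' : y ∈ s \ A := Finset.mem_sdiff.2 ⟨hy.1, hy.2.2⟩
      rcases Finset.mem_insert.1 hx with rfl | hx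
      · exact hmax y hy'
      · exact hAt x hx y hy'

/-- choosing the directions of a star -/
theorem pick {E F : Type} [Fintype E] [Fintype F] [Nonempty F] {d r s h : ℕ}
    (hd : 3 ≤ d) (hr : r = d - 1) (hs : 0 < s) (hh : 0 < h) (χ : E × E → Fin r) (γ : E × E → F)
    (hγ : ∀ (f : F → E) (P Q1 Q2 : Finset F),
      Set.InjOn f P → Set.InjOn f Q1 → Set.InjOn f Q2 →
      P.card = (s * s + s) ^ 2 * (h + 1) → Q1.card = (s * s + s) ^ 2 * (h + 1) →
      Q2.card = (s * s + s) ^ 2 * (h + 1) → ∀ i : Fin r,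
      ∃ x ∈ P, ∃ y ∈ Q1, ∃ w ∈ Q2, χ (f x, f y) = i ∧ χ (f x, f w) = i ∧ χ (f y, f w) = i ∧
        γ (f y, f w) = x)
    (hcard : (2 * r) * ((2 * (d - 2) + 1) * ((6 + d) * ((s * s + s) ^ 2 * h)))
      ≤ Fintype.card F)
    (Zs : E → Finset F) (D : F → E) (hZ : ∀ x, x ∈ Zs (D x)) (hZc : ∀ x, (Zs (D x)).card ≤ r)
    (sgn : F → Bool) (ps : F → Fin r) (lev : F → ℕ) (hlev : Function.Injective lev) :
    ∃ (i : Fin r) (ρ : Bool) (M : Finset F) (x1 x2 x3 : F), M.card = d ∧ x1 ∈ M ∧ x2 ∈ M ∧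
      x3 ∈ M ∧ lev x2 < lev x1 ∧ lev x3 < lev x2 ∧
      (∀ x ∈ M, x ≠ x1 → x ≠ x2 → x ≠ x3 → lev x < lev x3) ∧
      (∀ x ∈ M, sgn x = ρ) ∧ (∀ x ∈ M, ps x = i) ∧
      χ (D x1, D x2) = i ∧ χ (D x1, D x3) = i ∧ χ (D x2, D x3) = i ∧ γ (D x2, D x3) = x1 ∧
      ∀ x ∈ M, x ≠ x1 → x ∉ Zs (D x1) := by
  -- monochromatic part
  have hrpos : 0 < r := by omega
  obtain ⟨⟨ρ, i⟩, -, hfib⟩ := Finset.exists_le_card_fiber_of_mul_le_card_of_maps_to
    (s := (Finset.univ : Finset F)) (t := (Finset.univ : Finset (Bool × Fin r)))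
    (f := fun x => (sgn x, ps x)) (n := (2 * (d - 2) + 1) * ((6 + d) * ((s * s + s) ^ 2 * h)))
    (fun _ _ => Finset.mem_univ _) ⟨(true, ⟨0, hrpos⟩), Finset.mem_univ _⟩ (by
      rw [Finset.card_univ, Finset.card_univ, Fintype.card_prod, Fintype.card_bool,
        Fintype.card_fin]
      exact hcard)
  set M0 := (Finset.univ : Finset F).filter (fun x => (sgn x, ps x) = (ρ, i)) with hM0
  -- free part
  obtain ⟨M1, hM1, hM1c, hfree⟩ := exists_free (d - 2) (fun x => (Zs (D x)).erase x) (by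
    intro x
    rw [Finset.card_erase_of_mem (hZ x)]
    have := hZc x
    omega) M0
  have hfree' : ∀ x ∈ M1, ∀ y ∈ M1, x ≠ y → y ∉ Zs (D x) := by
    intro x hx y hy hxy hmem
    exact hfree x hx y hy hxy (Finset.mem_erase.2 ⟨hxy.symm, hmem⟩)
  set N0 := (s * s + s) ^ 2 * (h + 1) with hN0
  have hM1size : 3 * N0 + d ≤ M1.card := by
    have h1 : (2 * (d - 2) + 1) * ((6 + d) * ((s * s + s) ^ 2 * h))
        ≤ (2 * (d - 2) + 1) * M1.card := hfib.trans hM1c
    have h2 := Nat.le_of_mul_le_mul_left h1 (by omega)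
    have h3 : 1 ≤ (s * s + s) ^ 2 := Nat.one_le_pow _ _ (by positivity)
    have h4 : 3 * N0 + d ≤ (6 + d) * ((s * s + s) ^ 2 * h) := by
      have e1 : (6 + d) * ((s * s + s) ^ 2 * h) = 6 * ((s * s + s) ^ 2 * h) +
          d * ((s * s + s) ^ 2 * h) := by ring
      have e2 : N0 ≤ 2 * ((s * s + s) ^ 2 * h) := by
        rw [hN0]
        have : h + 1 ≤ 2 * h := by omega
        calc (s * s + s) ^ 2 * (h + 1) ≤ (s * s + s) ^ 2 * (2 * h) :=
              Nat.mul_le_mul_left _ this
          _ = _ := by ring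
      have e3 : 1 ≤ (s * s + s) ^ 2 * h := Nat.mul_pos h3 hh
      have e4 : d ≤ d * ((s * s + s) ^ 2 * h) := Nat.le_mul_of_pos_right _ e3
      omega
    omega
  obtain ⟨P, hP, hPc, hPt⟩ := exists_top lev M1 N0 (by omega)
  have hc1 : (M1 \ P).card = M1.card - N0 := by rw [Finset.card_sdiff_of_subset hP, hPc]
  obtain ⟨Q1, hQ1, hQ1c, hQ1t⟩ := exists_top lev (M1 \ P) N0 (by omega)
  have hc2 : ((M1 \ P) \ Q1).card = M1.card - N0 - N0 := by
    rw [Finset.card_sdiff_of_subset hQ1, hQ1c, hc1]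
  obtain ⟨Q2, hQ2, hQ2c, hQ2t⟩ := exists_top lev ((M1 \ P) \ Q1) N0 (by omega)
  have hc3 : (((M1 \ P) \ Q1) \ Q2).card = M1.card - N0 - N0 - N0 := by
    rw [Finset.card_sdiff_of_subset hQ2, hQ2c, hc2]
  obtain ⟨R, hR, hRc⟩ := Finset.exists_subset_card_eq (s := ((M1 \ P) \ Q1) \ Q2) (n := d - 3)
    (by omega)
  have hQ1' : Q1 ⊆ M1 := hQ1.trans Finset.sdiff_subset
  have hQ2' : Q2 ⊆ M1 := (hQ2.trans Finset.sdiff_subset).trans Finset.sdiff_subset
  have hR' : R ⊆ M1 := ((hR.trans Finset.sdiff_subset).trans Finset.sdiff_subset).trans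
    Finset.sdiff_subset
  have hinj : ∀ T : Finset F, T ⊆ M1 → Set.InjOn D (T : Set F) := by
    intro T hT x hx y hy hxy
    by_contra hne
    apply hfree' x (hT hx) y (hT hy) hne
    rw [hxy]; exact hZ y
  obtain ⟨x1, hx1, x2, hx2, x3, hx3, k1, k2, k3, k4⟩ := hγ D P Q1 Q2 (hinj P hP) (hinj Q1 hQ1')
    (hinj Q2 hQ2') hPc hQ1c hQ2c i
  have n12 : x1 ≠ x2 := by rintro rfl; exact (Finset.mem_sdiff.1 (hQ1 hx2)).2 hx1
  have n23 : x2 ≠ x3 := by rintro rfl; exact (Finset.mem_sdiff.1 (hQ2 hx3)).2 hx2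
  have n13 : x1 ≠ x3 := by
    rintro rfl
    exact (Finset.mem_sdiff.1 (Finset.mem_sdiff.1 (hQ2 hx3)).1).2 hx1
  have l12 : lev x2 < lev x1 :=
    lt_of_le_of_ne (hPt x1 hx1 x2 (hQ1 hx2)) (fun e => n12 (hlev e).symm)
  have l23 : lev x3 < lev x2 :=
    lt_of_le_of_ne (hQ1t x2 hx2 x3 (hQ2 hx3)) (fun e => n23 (hlev e).symm)
  have hRlt : ∀ x ∈ R, lev x < lev x3 ∧ x ≠ x1 ∧ x ≠ x2 ∧ x ≠ x3 := by
    intro x hx
    have h1 := hR hx
    have h2 := Finset.mem_sdiff.1 h1
    have h3 := Finset.mem_sdiff.1 h2.1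
    have h4 := Finset.mem_sdiff.1 h3.1
    have e1 : x ≠ x1 := by rintro rfl; exact h4.2 hx1
    have e2 : x ≠ x2 := by rintro rfl; exact h3.2 hx2
    have e3 : x ≠ x3 := by rintro rfl; exact h2.2 hx3
    exact ⟨lt_of_le_of_ne (hQ2t x3 hx3 x h1) (fun e => e3 (hlev e)), e1, e2, e3⟩
  have hMsub : insert x1 (insert x2 (insert x3 R)) ⊆ M1 := by
    intro x hx
    simp only [Finset.mem_insert] at hx
    rcases hx with rfl | rfl | rfl | hx
    · exact hP hx1
    · exact hQ1' hx2
    · exact hQ2' hx3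
    · exact hR' hx
  have hcol : ∀ x ∈ M1, sgn x = ρ ∧ ps x = i := by
    intro x hx
    have := (Finset.mem_filter.1 (hM1 hx)).2
    simpa using this
  refine ⟨i, ρ, insert x1 (insert x2 (insert x3 R)), x1, x2, x3, ?_, by simp, by simp, by simp,
    l12, l23, ?_, fun x hx => (hcol x (hMsub hx)).1, fun x hx => (hcol x (hMsub hx)).2,
    k1, k2, k3, k4, ?_⟩
  · rw [Finset.card_insert_of_notMem, Finset.card_insert_of_notMem,
      Finset.card_insert_of_notMem, hRc]
    · omega
    · intro hmem; exact (hRlt x3 hmem).2.2.2 rfl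
    · rw [Finset.mem_insert, not_or]
      exact ⟨n23, fun hmem => (hRlt x2 hmem).2.2.1 rfl⟩
    · rw [Finset.mem_insert, Finset.mem_insert, not_or, not_or]
      exact ⟨n12, n13, fun hmem => (hRlt x1 hmem).2.1 rfl⟩
  · intro x hx e1 e2 e3
    simp only [Finset.mem_insert] at hx
    rcases hx with rfl | rfl | rfl | hx
    · exact absurd rfl e1
    · exact absurd rfl e2
    · exact absurd rfl e3
    · exact (hRlt x hx).1
  · intro x hx hne
    exact hfree' x1 (hP hx1) x (hMsub hx) hne.symm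

end Pool.Agent.Helper660.TP
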