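import Mathlib
import Pool.Agent.Helper660.Pick

set_option autoImplicit false

namespace Pool.Agent.Helper660.TP

theorem pow_bern (m k : ℕ) : m ^ k + k * m ^ (k - 1) ≤ (m + 1) ^ k := by
  induction k with
  | zero => simp
  | succ k ih =>
    rcases Nat.eq_zero_or_pos k with rfl | hk
    · simp
    · have h1 : m ^ k = m ^ (k - 1) * m := by
        rw [← pow_succ]; congr 1; omega
      rw [Nat.add_sub_cancel, pow_succ (m + 1) k]
      calc m ^ (k + 1) + (k + 1) * m ^ k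
          = (m ^ k + k * m ^ (k - 1)) * m + m ^ k := by
            rw [pow_succ, h1]; ring
        _ ≤ (m + 1) ^ k * m + (m + 1) ^ k := by
            have : m ^ k ≤ (m + 1) ^ k := Nat.pow_le_pow_left (by omega) _
            gcongr
        _ = _ := by ring

theorem two_mul_pow (q : ℕ) (hq : 1 ≤ q) : 2 * (q - 1) ^ q ≤ q ^ q := by
  obtain ⟨m, rfl⟩ : ∃ m, q = m + 1 := ⟨q - 1, by omega⟩
  have h := pow_bern m (m + 1)
  simp only [Nat.add_sub_cancel] at h ⊢
  have : (m + 1) * m ^ m ≥ m ^ (m + 1) := by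
    rw [pow_succ, mul_comm]
    exact Nat.mul_le_mul_left _ (by omega)
  omega

/-- polynomials are beaten by powers of two -/
theorem exists_big (C k : ℕ) : ∃ a : ℕ, C * (a + 1) ^ k ≤ 2 ^ a := by
  have h := tendsto_pow_const_div_const_pow_of_one_lt k (r := (2 : ℝ)) (by norm_num)
  have h1 : (0 : ℝ) < 1 / (2 * (C + 1)) := by positivity
  have h2 := (h.eventually (gt_mem_nhds h1))
  rw [Filter.eventually_atTop] at h2
  obtain ⟨N, hN⟩ := h2
  refine ⟨N, ?_⟩
  have h3 := hN (N + 1) (by omega)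
  have h4 : (0 : ℝ) < 2 ^ (N + 1) := by positivity
  rw [div_lt_div_iff₀ h4 (by positivity)] at h3
  have h5 : ((C : ℝ) * (N + 1) ^ k) ≤ 2 ^ N := by
    have e : (2 : ℝ) ^ (N + 1) = 2 * 2 ^ N := by ring
    rw [e] at h3
    have h6 : ((N + 1 : ℕ) : ℝ) ^ k = ((N : ℝ) + 1) ^ k := by push_cast; ring
    rw [h6] at h3
    have h7 : (0 : ℝ) ≤ ((N : ℝ) + 1) ^ k := by positivity
    nlinarith
  exact_mod_cast h5

section
variable (d a : ℕ)

/-- parameters of the construction -/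
def sP : ℕ := (d - 1) * (4 * d * (a + 1) + 1)
def tP : ℕ := sP d a * sP d a + sP d a
def KP : ℕ := (2 * (d - 1)) * ((2 * (d - 2) + 1) * (6 + d))
def h1P : ℕ := KP d * tP d a * (2 * d * (a + 1) + 3) + (d - 1)
def hP : ℕ := KP d * h1P d a
def nP : ℕ := KP d * tP d a ^ 2 * hP d a
end

theorem nP_le (d : ℕ) : ∃ C : ℕ, ∀ a, nP d a ≤ C * (a + 1) ^ 7 := by
  -- each quantity is at most a constant times a power of (a+1)
  have hs : ∀ a, sP d a ≤ (d * (4 * d + 1)) * (a + 1) := by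
    intro a
    unfold sP
    calc (d - 1) * (4 * d * (a + 1) + 1) ≤ d * (4 * d * (a + 1) + (a + 1)) := by
          apply Nat.mul_le_mul <;> omega
      _ = _ := by ring
  set c1 := d * (4 * d + 1)
  have ht : ∀ a, tP d a ≤ (c1 * c1 + c1) * (a + 1) ^ 2 := by
    intro a
    unfold tP
    have h1 := hs a
    have h2 : sP d a * sP d a ≤ (c1 * (a + 1)) * (c1 * (a + 1)) := Nat.mul_le_mul h1 h1
    have h3 : (a + 1) ≤ (a + 1) ^ 2 := by nlinarith
    have h4 : c1 * (a + 1) ≤ c1 * (a + 1) ^ 2 := Nat.mul_le_mul_left _ h3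
    calc _ ≤ (c1 * (a + 1)) * (c1 * (a + 1)) + c1 * (a + 1) ^ 2 := by omega
      _ = _ := by ring
  set c2 := c1 * c1 + c1
  have hh1 : ∀ a, h1P d a ≤ (KP d * c2 * (2 * d + 3) + d) * (a + 1) ^ 3 := by
    intro a
    unfold h1P
    have h1 := ht a
    have h2 : 2 * d * (a + 1) + 3 ≤ (2 * d + 3) * (a + 1) := by nlinarith
    have h3 : 1 ≤ (a + 1) ^ 3 := Nat.one_le_pow _ _ (by omega)
    have h4 : KP d * tP d a * (2 * d * (a + 1) + 3) ≤
        KP d * (c2 * (a + 1) ^ 2) * ((2 * d + 3) * (a + 1)) := by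
      apply Nat.mul_le_mul _ h2
      exact Nat.mul_le_mul_left _ h1
    calc _ ≤ KP d * (c2 * (a + 1) ^ 2) * ((2 * d + 3) * (a + 1)) + d * (a + 1) ^ 3 := by
          have : d - 1 ≤ d * (a + 1) ^ 3 := by
            have := Nat.le_mul_of_pos_right d h3
            omega
          omega
      _ = _ := by ring
  set c3 := KP d * c2 * (2 * d + 3) + d
  refine ⟨KP d * c2 ^ 2 * (KP d * c3), ?_⟩
  intro a
  unfold nP hP
  calc KP d * tP d a ^ 2 * (KP d * h1P d a)
      ≤ KP d * (c2 * (a + 1) ^ 2) ^ 2 * (KP d * (c3 * (a + 1) ^ 3)) := by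
        have h1 := ht a
        have h2 := hh1 a
        gcongr
    _ = _ := by ring

theorem condC3 (d a Δ : ℕ) (hd : 3 ≤ d) (hΔ : Δ ≤ 2 ^ (2 * d * (a + 1))) :
    Δ ^ (2 * sP d a) * (d - 1) * ((d - 1) - 1) ^ (sP d a * sP d a)
      < (d - 1) ^ (sP d a * sP d a) := by
  set r := d - 1 with hr
  have hr2 : 2 ≤ r := by omega
  set s' := 4 * d * (a + 1) + 1 with hs'
  have hs : sP d a = r * s' := rfl
  set w := r * s' * s' with hw
  have e1 : sP d a * sP d a = r * w := by rw [hs, hw]; ring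
  have h1 : 2 ^ w * (r - 1) ^ (sP d a * sP d a) ≤ r ^ (sP d a * sP d a) := by
    rw [e1, pow_mul (r - 1) r w, pow_mul r r w, ← mul_pow]
    exact Nat.pow_le_pow_left (two_mul_pow r (by omega)) _
  have h2 : Δ ^ (2 * sP d a) * r < 2 ^ w := by
    calc Δ ^ (2 * sP d a) * r ≤ (2 ^ (2 * d * (a + 1))) ^ (2 * sP d a) * r := by gcongr
      _ = 2 ^ (2 * d * (a + 1) * (2 * sP d a)) * r := by rw [← pow_mul]
      _ < 2 ^ (2 * d * (a + 1) * (2 * sP d a)) * 2 ^ r := by
          apply Nat.mul_lt_mul_of_pos_left Nat.lt_two_pow_self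
          positivity
      _ = 2 ^ (2 * d * (a + 1) * (2 * sP d a) + r) := by rw [← pow_add]
      _ ≤ 2 ^ w := by
          apply Nat.pow_le_pow_right (by norm_num)
          rw [hs, hw]
          have : 2 * d * (a + 1) * (2 * (r * s')) = r * (s' * (4 * d * (a + 1))) := by ring
          rw [this]
          have e2 : r * s' * s' = r * (s' * (4 * d * (a + 1))) + r * s' := by
            rw [hs']; ring
          rw [e2]
          have : 1 ≤ s' := by omega
          nlinarith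
  have hpos : 0 < (r - 1) ^ (sP d a * sP d a) := by
    apply Nat.pow_pos; omega
  calc Δ ^ (2 * sP d a) * r * (r - 1) ^ (sP d a * sP d a)
      < 2 ^ w * (r - 1) ^ (sP d a * sP d a) := Nat.mul_lt_mul_of_pos_right h2 hpos
    _ ≤ _ := h1

theorem sP_pos (d a : ℕ) (hd : 3 ≤ d) : 0 < sP d a := by
  unfold sP
  apply Nat.mul_pos <;> omega

theorem tP_pos (d a : ℕ) (hd : 3 ≤ d) : 0 < tP d a := by
  have := sP_pos d a hd
  unfold tP; omega

theorem KP_pos (d : ℕ) (hd : 3 ≤ d) : 2 ≤ KP d := by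
  unfold KP
  have h1 : 1 ≤ (2 * (d - 2) + 1) * (6 + d) := Nat.mul_pos (by omega) (by omega)
  have h2 : 2 ≤ 2 * (d - 1) := by omega
  nlinarith

theorem hP_pos (d a : ℕ) (hd : 3 ≤ d) : 0 < hP d a := by
  unfold hP h1P
  apply Nat.mul_pos
  · have := KP_pos d hd; omega
  · have : 0 < d - 1 := by omega
    omega

theorem condC2 (d a Δ : ℕ) (hd : 3 ≤ d) (hΔ : Δ ≤ 2 ^ (2 * d * (a + 1))) :
    Δ ^ (nP d a) * (2 ^ nP d a) ^ 3 * (d - 1) *
      (nP d a - hP d a) ^ ((sP d a * sP d a + sP d a) ^ 3 * hP d a ^ 2)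
      < nP d a ^ ((sP d a * sP d a + sP d a) ^ 3 * hP d a ^ 2) := by
  have hK := KP_pos d hd
  have htp := tP_pos d a hd
  have hhp := hP_pos d a hd
  set n := nP d a with hn
  set t := tP d a with ht
  set K := KP d with hKd
  set h := hP d a with hh
  set h' := h1P d a with hh'
  have ht' : sP d a * sP d a + sP d a = t := rfl
  rw [ht']
  set q := K * t ^ 2 with hq
  set w := t * K * h' ^ 2 with hw
  have hhK : h = K * h' := rfl
  have hnq : n = q * h := rfl
  have e1 : t ^ 3 * h ^ 2 = q * w := by rw [hhK, hq, hw]; ring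
  have hq1 : 2 ≤ q := by
    rw [hq]
    have : 1 ≤ t ^ 2 := Nat.one_le_pow _ _ htp
    nlinarith
  have hnh : n - h = (q - 1) * h := by rw [hnq, Nat.sub_mul, one_mul]
  have h1 : 2 ^ w * (n - h) ^ (t ^ 3 * h ^ 2) ≤ n ^ (t ^ 3 * h ^ 2) := by
    rw [e1, pow_mul (n - h) q w, pow_mul n q w, ← mul_pow]
    apply Nat.pow_le_pow_left
    rw [hnh, hnq, mul_pow, mul_pow, ← mul_assoc]
    exact Nat.mul_le_mul_right _ (two_mul_pow q (by omega))
  set r := d - 1 with hr
  have h2 : Δ ^ n * (2 ^ n) ^ 3 * r < 2 ^ w := by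
    calc Δ ^ n * (2 ^ n) ^ 3 * r ≤ (2 ^ (2 * d * (a + 1))) ^ n * (2 ^ n) ^ 3 * r := by gcongr
      _ = 2 ^ (2 * d * (a + 1) * n + n * 3) * r := by
          rw [← pow_mul, ← pow_mul, ← pow_add]
      _ < 2 ^ (2 * d * (a + 1) * n + n * 3) * 2 ^ r := by
          apply Nat.mul_lt_mul_of_pos_left Nat.lt_two_pow_self
          positivity
      _ = 2 ^ (2 * d * (a + 1) * n + n * 3 + r) := by rw [← pow_add]
      _ ≤ 2 ^ w := by
          apply Nat.pow_le_pow_right (by norm_num)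
          have hn2 : n = K * t ^ 2 * (K * h') := by rw [hnq, hq, hhK]
          have hh'e : h' = K * t * (2 * d * (a + 1) + 3) + r := rfl
          have e3 : 2 * d * (a + 1) * n + n * 3 = (t * K * h') * (K * t * (2 * d * (a + 1) + 3)) := by
            rw [hn2]; ring
          have e4 : w = (t * K * h') * h' := by rw [hw]; ring
          rw [e3, e4]
          have hpos : 1 ≤ t * K * h' := by
            have : 0 < h' := by
              rw [hh'e]; omega
            exact Nat.mul_pos (Nat.mul_pos htp (by omega)) this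
          calc (t * K * h') * (K * t * (2 * d * (a + 1) + 3)) + r
              ≤ (t * K * h') * (K * t * (2 * d * (a + 1) + 3)) + (t * K * h') * r := by
                have := Nat.le_mul_of_pos_left r hpos
                omega
            _ = (t * K * h') * (K * t * (2 * d * (a + 1) + 3) + r) := by ring
            _ = (t * K * h') * h' := by rw [← hh'e]
  have hpos : 0 < (n - h) ^ (t ^ 3 * h ^ 2) := by
    apply Nat.pow_pos
    rw [hnh]
    apply Nat.mul_pos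
    · omega
    · exact hhp
  calc Δ ^ n * (2 ^ n) ^ 3 * r * (n - h) ^ (t ^ 3 * h ^ 2)
      < 2 ^ w * (n - h) ^ (t ^ 3 * h ^ 2) := Nat.mul_lt_mul_of_pos_right h2 hpos
    _ ≤ _ := h1

/-- the decoding rule exists -/
theorem exists_rule (d : ℕ) (hd : 3 ≤ d) : ∃ n p : ℕ, 0 < n ∧ n < p ∧ p.Prime ∧
    ∀ (E : Type) [Fintype E], Fintype.card E = (p ^ d) ^ 2 →
    ∃ (χ : E × E → Fin (d - 1)) (γ : E × E → Fin n),
    ∀ (Zs : E → Finset (Fin n)) (D : Fin n → E), (∀ x, x ∈ Zs (D x)) →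
      (∀ x, (Zs (D x)).card ≤ d - 1) → ∀ (sgn : Fin n → Bool) (ps : Fin n → Fin (d - 1))
      (lev : Fin n → ℕ), Function.Injective lev →
    ∃ (i : Fin (d - 1)) (ρ : Bool) (M : Finset (Fin n)) (x1 x2 x3 : Fin n), M.card = d ∧
      x1 ∈ M ∧ x2 ∈ M ∧ x3 ∈ M ∧ lev x2 < lev x1 ∧ lev x3 < lev x2 ∧
      (∀ x ∈ M, x ≠ x1 → x ≠ x2 → x ≠ x3 → lev x < lev x3) ∧
      (∀ x ∈ M, sgn x = ρ) ∧ (∀ x ∈ M, ps x = i) ∧
      χ (D x1, D x2) = i ∧ χ (D x1, D x3) = i ∧ χ (D x2, D x3) = i ∧ γ (D x2, D x3) = x1 ∧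
      ∀ x ∈ M, x ≠ x1 → x ∉ Zs (D x1) := by
  obtain ⟨C, hC⟩ := nP_le d
  obtain ⟨a, ha⟩ := exists_big C 7
  have hna : nP d a ≤ 2 ^ a := (hC a).trans ha
  have hnpos : 0 < nP d a := by
    unfold nP
    have h1 := KP_pos d hd
    have h2 := tP_pos d a hd
    have h3 := hP_pos d a hd
    positivity
  obtain ⟨p, hp, hnp, hp2⟩ := Nat.exists_prime_lt_and_le_two_mul (nP d a) (by omega)
  refine ⟨nP d a, p, hnpos, hnp, hp, ?_⟩
  intro E _ hE
  have hΔ : Fintype.card E ≤ 2 ^ (2 * d * (a + 1)) := by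
    rw [hE]
    have h1 : p ≤ 2 ^ (a + 1) := by rw [pow_succ]; omega
    calc (p ^ d) ^ 2 ≤ ((2 ^ (a + 1)) ^ d) ^ 2 := by gcongr
      _ = _ := by rw [← pow_mul, ← pow_mul]; congr 1; ring
  obtain ⟨χ, hχ⟩ := exists_chi (E := E) (d - 1) (sP d a) (by omega) (condC3 d a _ hd hΔ)
  have : Nonempty (Fin (nP d a)) := ⟨⟨0, hnpos⟩⟩
  obtain ⟨γ, hγ⟩ := exists_gamma (F := Fin (nP d a)) (h := hP d a) (sP_pos d a hd) χ hχ (by
    rw [Fintype.card_fin]
    exact condC2 d a _ hd hΔ)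
  refine ⟨χ, γ, ?_⟩
  intro Zs D hZ hZc sgn ps lev hlev
  refine pick (s := sP d a) (h := hP d a) hd rfl (sP_pos d a hd) (hP_pos d a hd) χ γ hγ ?_
    Zs D hZ hZc sgn ps lev hlev
  rw [Fintype.card_fin]
  apply le_of_eq
  unfold nP KP tP
  ring

end Pool.Agent.Helper660.TP
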