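import Mathlib
import Pool.Agent.Helper660.Corner
import Pool.Agent.Helper660.Levels
import Pool.Agent.Helper660.Params

set_option autoImplicit false

namespace Pool.Agent.Helper660.TP

open PiNat Classical

/-- evaluation of the polynomial with coefficients `b` at the point `x` -/
def rs (d n p : ℕ) (x : Fin n) (b : Fin d → ZMod p) : ZMod p :=
  ∑ j : Fin d, ((x.val : ZMod p)) ^ (j : ℕ) * b j

theorem rs_mds {d n p : ℕ} (hp : p.Prime) (hnp : n < p) (b b' : Fin d → ZMod p)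
    (T : Finset (Fin n)) (hT : d ≤ T.card) (h : ∀ x ∈ T, rs d n p x b = rs d n p x b') :
    b = b' := by
  have : Fact p.Prime := ⟨hp⟩
  obtain ⟨T', hT', hc⟩ := Finset.exists_subset_card_eq hT
  set e := T'.orderEmbOfFin hc with he
  have hinj : Function.Injective (fun j : Fin d => (((e j).val : ℕ) : ZMod p)) := by
    intro i j hij
    simp only at hij
    rw [ZMod.natCast_eq_natCast_iff'] at hij
    rw [Nat.mod_eq_of_lt (lt_trans (e i).isLt hnp), Nat.mod_eq_of_lt (lt_trans (e j).isLt hnp)]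
      at hij
    exact e.injective (Fin.ext hij)
  have key := Matrix.eq_zero_of_forall_index_sum_pow_mul_eq_zero (v := b - b') hinj (by
    intro j
    have h1 := h (e j) (hT' (Finset.orderEmbOfFin_mem T' hc j))
    unfold rs at h1
    simp only [Pi.sub_apply, mul_sub, Finset.sum_sub_distrib]
    rw [sub_eq_zero]
    exact h1)
  exact sub_eq_zero.1 key

theorem Z_card_le {d n p : ℕ} (hd : 0 < d) (hp : p.Prime) (hnp : n < p)
    (q : (Fin d → ZMod p) × (Fin d → ZMod p)) (hq : q.1 ≠ q.2) :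
    (Z (rs d n p) q).card ≤ d - 1 := by
  by_contra hcon
  apply hq
  apply rs_mds hp hnp q.1 q.2 (Z (rs d n p) q) (by omega)
  intro x hx
  exact (mem_Z (rs d n p) x q).1 hx

theorem pos_lt {B F A : Type} [Fintype F] [LinearOrder F] [DecidableEq A] (π : F → B → A) (x : F)
    (q : B × B) (hx : x ∈ Z π q) : pos π x q < (Z π q).card := by
  unfold pos
  apply Finset.card_lt_card
  rw [Finset.ssubset_iff_of_subset (Finset.filter_subset _ _)]
  exact ⟨x, hx, by simp⟩

/-- property of a decoding rule -/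
def RuleOK (d n : ℕ) {E : Type} (χ : E × E → Fin (d - 1)) (γ : E × E → Fin n) : Prop :=
  ∀ (Zs : E → Finset (Fin n)) (D : Fin n → E), (∀ x, x ∈ Zs (D x)) →
      (∀ x, (Zs (D x)).card ≤ d - 1) → ∀ (sgn : Fin n → Bool) (ps : Fin n → Fin (d - 1))
      (lev : Fin n → ℕ), Function.Injective lev →
    ∃ (i : Fin (d - 1)) (ρ : Bool) (M : Finset (Fin n)) (x1 x2 x3 : Fin n), M.card = d ∧
      x1 ∈ M ∧ x2 ∈ M ∧ x3 ∈ M ∧ lev x2 < lev x1 ∧ lev x3 < lev x2 ∧
      (∀ x ∈ M, x ≠ x1 → x ≠ x2 → x ≠ x3 → lev x < lev x3) ∧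
      (∀ x ∈ M, sgn x = ρ) ∧ (∀ x ∈ M, ps x = i) ∧
      χ (D x1, D x2) = i ∧ χ (D x1, D x3) = i ∧ χ (D x2, D x3) = i ∧ γ (D x2, D x3) = x1 ∧
      ∀ x ∈ M, x ≠ x1 → x ∉ Zs (D x1)

/-- every large set contains the edge of a star -/
theorem exists_star {d n p : ℕ} (hd : 3 ≤ d) (hn : 0 < n) (hnp : n < p) (hp : p.Prime)
    (χ : ((Fin d → ZMod p) × (Fin d → ZMod p)) × ((Fin d → ZMod p) × (Fin d → ZMod p)) →
      Fin (d - 1))
    (γ : ((Fin d → ZMod p) × (Fin d → ZMod p)) × ((Fin d → ZMod p) × (Fin d → ZMod p)) →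
      Fin n) (hrule : RuleOK d n χ γ) (enc : (Fin d → ZMod p) → ℕ)
    (S : Finset (ℕ → (Fin d → ZMod p))) (m : ℕ)
    (hS : ∀ a ∈ S, ∀ b ∈ S, ∀ v, m ≤ v → a v = b v)
    (hcard : n * ((p ^ d) ^ n * p ^ m) < S.card) :
    ∃ c f x u1 u2 u3 i ρ, IsStar (rs d n p) d enc (fun a b => (χ (a, b)).val)
      (fun a b => γ (a, b)) c f x u1 u2 u3 i ρ ∧ c ∈ S ∧ f ⊆ S := by
  have : Fact p.Prime := ⟨hp⟩
  have : Nonempty (Fin n) := ⟨⟨0, hn⟩⟩
  have hcB : Fintype.card (Fin d → ZMod p) = p ^ d := by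
    rw [Fintype.card_fun, ZMod.card, Fintype.card_fin]
  obtain ⟨c, hc, u, hu1, hu2, hu3, hu4⟩ := exists_mates (rs d n p) S m hS (by
    rw [Fintype.card_fin, hcB, ZMod.card]; exact hcard)
  have hoff : ∀ x, (D c (u x)).1 ≠ (D c (u x)).2 := fun x =>
    apply_firstDiff_ne (fun e => hu2 x e.symm)
  have hZ : ∀ x, x ∈ Z (rs d n p) (D c (u x)) := by
    intro x
    rw [mem_Z_D]
    exact (hu3 x _).symm
  have hZc : ∀ x, (Z (rs d n p) (D c (u x))).card ≤ d - 1 := fun x =>
    Z_card_le (by omega) hp hnp _ (hoff x)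
  obtain ⟨i, ρ, M, x1, x2, x3, hMc, h1, h2, h3, l12, l23, hrest, hsg, hps, c12, c13, c23, hg,
    hiso⟩ := hrule (fun q => Z (rs d n p) q) (fun x => D c (u x)) hZ hZc
    (fun x => decide (enc (D c (u x)).1 < enc (D c (u x)).2))
    (fun x => ⟨pos (rs d n p) x (D c (u x)), lt_of_lt_of_le (pos_lt _ x _ (hZ x)) (hZc x)⟩)
    (fun x => firstDiff c (u x)) hu4
  have huinj : Function.Injective u := by
    intro x y hxy
    apply hu4
    simp only [hxy]
  have hinv : ∀ x, Function.invFun u (u x) = x := Function.leftInverse_invFun huinj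
  refine ⟨c, M.image u, Function.invFun u, u x1, u x2, u x3, i.val, ρ, ?_, hc, ?_⟩
  · refine ⟨?_, ?_, ?_, ?_, ?_, ?_, ?_, ?_, l12, l23, ?_, ?_, ?_, ?_, ?_, ?_, ?_, ?_⟩
    · rw [Finset.card_image_of_injective _ huinj, hMc]
    · intro hmem
      obtain ⟨x, -, hx⟩ := Finset.mem_image.1 hmem
      exact hu2 x hx
    · exact Finset.mem_image_of_mem _ h1
    · exact Finset.mem_image_of_mem _ h2
    · exact Finset.mem_image_of_mem _ h3
    · intro a ha b hb hab
      obtain ⟨x, -, rfl⟩ := Finset.mem_image.1 ha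
      obtain ⟨y, -, rfl⟩ := Finset.mem_image.1 hb
      rw [hinv, hinv] at hab
      rw [hab]
    · intro a ha v
      obtain ⟨x, -, rfl⟩ := Finset.mem_image.1 ha
      rw [hinv]
      exact hu3 x v
    · intro a ha b hb hab
      obtain ⟨x, -, rfl⟩ := Finset.mem_image.1 ha
      obtain ⟨y, -, rfl⟩ := Finset.mem_image.1 hb
      rw [hu4 hab]
    · intro w hw e1 e2 e3
      obtain ⟨x, hx, rfl⟩ := Finset.mem_image.1 hw
      exact hrest x hx (fun e => e1 (by rw [e])) (fun e => e2 (by rw [e]))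
        (fun e => e3 (by rw [e]))
    · intro a ha
      obtain ⟨x, hx, rfl⟩ := Finset.mem_image.1 ha
      have := hsg x hx
      rw [← this, decide_eq_true_eq]
    · intro a ha
      obtain ⟨x, hx, rfl⟩ := Finset.mem_image.1 ha
      have := hps x hx
      rw [hinv]
      exact congrArg Fin.val this
    · exact congrArg Fin.val c12
    · exact congrArg Fin.val c13
    · exact congrArg Fin.val c23
    · rw [hinv]; exact hg
    · intro a ha hne
      obtain ⟨x, hx, rfl⟩ := Finset.mem_image.1 ha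
      rw [hinv]
      exact hiso x hx (fun e => hne (by rw [e]))
  · intro a ha
    obtain ⟨x, -, rfl⟩ := Finset.mem_image.1 ha
    exact hu1 x

end Pool.Agent.Helper660.TP
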