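import Mathlib
import Pool.Agent.Helper660.Star

set_option autoImplicit false

namespace Pool.Agent.Helper660.TP

open PiNat Classical

theorem no_path {V : Type} (Cor : Finset V → V → Prop) (h1 : ∀ e c, Cor e c → c ∈ e)
    (h2 : ∀ e e' c c' p p', Cor e c → Cor e' c' → p ∈ e → p' ∈ e' → e.erase p = e'.erase p' →
      c = c')
    {k s : ℕ} (hk : 1 ≤ k) (hs : k + 1 ≤ s) (w : Fin (s + k - 1) → V)
    (hw : Function.Injective w)
    (h3 : ∀ i : Fin s, ∃ c, Cor ((Finset.univ.filter (fun j : Fin (s + k - 1) =>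
                    i.val ≤ j.val ∧ j.val < i.val + k)).image w) c) : False := by
  choose c hc using h3
  have step : ∀ i : ℕ, ∀ hi : i + 1 < s, c ⟨i, by omega⟩ = c ⟨i + 1, hi⟩ := by
    intro i hi
    have ha : i < s + k - 1 := by omega
    have hb : i + k < s + k - 1 := by omega
    apply h2 _ _ _ _ (w ⟨i, ha⟩) (w ⟨i + k, hb⟩) (hc ⟨i, by omega⟩) (hc ⟨i + 1, hi⟩)
    · apply Finset.mem_image_of_mem
      simp only [Finset.mem_filter, Finset.mem_univ, true_and]
      omega
    · apply Finset.mem_image_of_mem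
      simp only [Finset.mem_filter, Finset.mem_univ, true_and]
      omega
    · rw [← Finset.image_erase hw, ← Finset.image_erase hw]
      congr 1
      ext j
      simp only [Finset.mem_erase, Finset.mem_filter, Finset.mem_univ, true_and, ne_eq,
        Fin.ext_iff]
      omega
  have all : ∀ i : ℕ, ∀ hi : i < s, c ⟨i, hi⟩ = c ⟨0, by omega⟩ := by
    intro i
    induction i with
    | zero => intro _; rfl
    | succ i ih =>
      intro hi
      rw [← step i hi]
      exact ih (by omega)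
  have m0 := h1 _ _ (hc ⟨0, by omega⟩)
  have mk := h1 _ _ (hc ⟨k, by omega⟩)
  rw [all k (by omega)] at mk
  obtain ⟨a, ha, ha'⟩ := Finset.mem_image.1 m0
  obtain ⟨b, hb, hb'⟩ := Finset.mem_image.1 mk
  have hab : a = b := hw (ha'.trans hb'.symm)
  subst hab
  simp only [Finset.mem_filter, Finset.mem_univ, true_and] at ha hb
  omega

theorem lower_general {V : Type} {k : ℕ} (hk : 1 ≤ k) (Cor : Finset V → V → Prop)
    (h1 : ∀ e c, Cor e c → c ∈ e)
    (h2 : ∀ e e' c c' p p', Cor e c → Cor e' c' → p ∈ e → p' ∈ e' → e.erase p = e'.erase p' →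
      c = c')
    (c0 : ℝ) (T : ℕ)
    (hX : ∀ t : ℕ, T ≤ t → ∃ X : Finset V, c0 * (t : ℝ) ^ (k - 1) ≤ X.card ∧
      ∀ S ⊆ X, S.card = t → ∃ e ⊆ S, e.card = k ∧ ∃ c, Cor e c) :
    ∀ s : ℕ, k + 1 ≤ s → ∀ t : ℕ, T ≤ t → ∀ n : ℕ, (n : ℝ) ≤ c0 * (t : ℝ) ^ (k - 1) →
          ¬ (∀ H : Set (Finset (Fin n)),
            (∃ v : Fin (s + k - 1) → Fin n, Function.Injective v ∧
              ∀ i : Fin s,
                (Finset.univ.filter (fun j : Fin (s + k - 1) =>
                    i.val ≤ j.val ∧ j.val < i.val + k)).image v ∈ H) ∨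
            (∃ S : Finset (Fin n), S.card = t ∧
              ∀ e : Finset (Fin n), e ⊆ S → e.card = k → e ∉ H)) := by
  intro s hs t ht n hn hcon
  obtain ⟨X, hXc, hXe⟩ := hX t ht
  have hnX : n ≤ X.card := by exact_mod_cast hn.trans hXc
  obtain ⟨X', hX', hX'c⟩ := Finset.exists_subset_card_eq hnX
  set E := X'.equivFinOfCardEq hX'c with hE
  set φ : Fin n → V := fun i => (E.symm i).1 with hφ
  have hφinj : Function.Injective φ := by
    intro a b hab
    exact E.symm.injective (Subtype.ext hab)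
  have hφX : ∀ i, φ i ∈ X := fun i => hX' (E.symm i).2
  rcases hcon {e | ∃ c, Cor (e.image φ) c} with ⟨v, hv, hv2⟩ | ⟨S, hSc, hS⟩
  · apply no_path Cor h1 h2 hk hs (fun j => φ (v j)) (hφinj.comp hv)
    intro i
    obtain ⟨c, hc⟩ := hv2 i
    refine ⟨c, ?_⟩
    rw [Finset.image_image] at hc
    exact hc
  · obtain ⟨e', he', he'c, c, hc⟩ := hXe (S.image φ) (by
      intro x hx
      obtain ⟨i, -, rfl⟩ := Finset.mem_image.1 hx
      exact hφX i) (by rw [Finset.card_image_of_injective _ hφinj, hSc])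
    have himg : (S.filter (fun i => φ i ∈ e')).image φ = e' := by
      ext x
      rw [Finset.mem_image]
      constructor
      · rintro ⟨i, hi, rfl⟩
        exact (Finset.mem_filter.1 hi).2
      · intro hx
        obtain ⟨i, hi, rfl⟩ := Finset.mem_image.1 (he' hx)
        exact ⟨i, Finset.mem_filter.2 ⟨hi, hx⟩, rfl⟩
    apply hS (S.filter (fun i => φ i ∈ e')) (Finset.filter_subset _ _)
    · rw [← Finset.card_image_of_injective _ hφinj, himg, he'c]
    · refine ⟨c, ?_⟩
      rw [himg]; exact hc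

/-- sequences vanishing from level `m` on -/
noncomputable def ext {B : Type} [Zero B] (m : ℕ) (g : Fin m → B) : ℕ → B :=
  fun v => if h : v < m then g ⟨v, h⟩ else 0

theorem ext_inj {B : Type} [Zero B] (m : ℕ) : Function.Injective (ext (B := B) m) := by
  intro g g' h
  funext v
  have := congrFun h v.val
  unfold ext at this
  simpa [v.isLt] using this

theorem lower_ge4 (d : ℕ) (hd : 3 ≤ d) : ∃ c0 : ℝ, 0 < c0 ∧ ∃ T : ℕ,
    ∀ s : ℕ, d + 1 + 1 ≤ s → ∀ t : ℕ, T ≤ t → ∀ n : ℕ, (n : ℝ) ≤ c0 * (t : ℝ) ^ (d + 1 - 1) →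
          ¬ (∀ H : Set (Finset (Fin n)),
            (∃ v : Fin (s + (d + 1) - 1) → Fin n, Function.Injective v ∧
              ∀ i : Fin s,
                (Finset.univ.filter (fun j : Fin (s + (d + 1) - 1) =>
                    i.val ≤ j.val ∧ j.val < i.val + (d + 1))).image v ∈ H) ∨
            (∃ S : Finset (Fin n), S.card = t ∧
              ∀ e : Finset (Fin n), e ⊆ S → e.card = d + 1 → e ∉ H)) := by
  obtain ⟨n, p, hn, hnp, hp, hrule⟩ := exists_rule d hd
  have : Fact p.Prime := ⟨hp⟩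
  have hcB : Fintype.card (Fin d → ZMod p) = p ^ d := by
    rw [Fintype.card_fun, ZMod.card, Fintype.card_fin]
  obtain ⟨χ, γ, hOK⟩ := hrule ((Fin d → ZMod p) × (Fin d → ZMod p)) (by
    rw [Fintype.card_prod, hcB]; ring)
  set enc : (Fin d → ZMod p) → ℕ := fun b => (Fintype.equivFin (Fin d → ZMod p) b).val with henc
  have hencinj : Function.Injective enc := by
    intro a b hab
    exact (Fintype.equivFin _).injective (Fin.ext hab)
  set Cor : Finset (ℕ → (Fin d → ZMod p)) → (ℕ → (Fin d → ZMod p)) → Prop := fun e c =>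
    ∃ f x u1 u2 u3 i ρ, IsStar (rs d n p) d enc (fun a b => (χ (a, b)).val)
      (fun a b => γ (a, b)) c f x u1 u2 u3 i ρ ∧ e = insert c f with hCor
  set K0 := n * (p ^ d) ^ n with hK0
  have hp1 : 1 < p := hp.one_lt
  have hK0pos : 0 < K0 := by positivity
  refine ⟨1 / ((K0 * p : ℕ) : ℝ) ^ d, by positivity, K0 + 1, ?_⟩
  apply lower_general (k := d + 1) (by omega) Cor
  · rintro e c ⟨f, x, u1, u2, u3, i, ρ, σ, rfl⟩
    exact Finset.mem_insert_self _ _
  · rintro e e' c c' q q' ⟨f, x, u1, u2, u3, i, ρ, σ, rfl⟩ ⟨f', x', u1', u2', u3', i', ρ', σ', rfl⟩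
      hq hq' heq
    refine corner_unique (rs d n p) hd (fun b b' T hT h => rs_mds hp hnp b b' T hT h) hencinj
      σ σ' (p := q) (p' := q') (g := (insert c f).erase q) ?_ ?_ ?_
    · rw [Finset.card_erase_of_mem hq, Finset.card_insert_of_notMem σ.hc, σ.hcard]; rfl
    · intro z
      rw [Finset.mem_erase, Finset.mem_insert]
      tauto
    · intro z
      rw [heq, Finset.mem_erase, Finset.mem_insert]
      tauto
  · intro t ht
    -- choose the number of levels
    have hex : ∃ m, t ≤ K0 * p ^ (m + 1) := by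
      refine ⟨t, ?_⟩
      have h1 : t + 1 < p ^ (t + 1) := Nat.lt_pow_self hp1
      calc t ≤ p ^ (t + 1) := by omega
        _ ≤ K0 * p ^ (t + 1) := Nat.le_mul_of_pos_left _ hK0pos
    set m := Nat.find hex with hm
    have hm1 : t ≤ K0 * p ^ (m + 1) := Nat.find_spec hex
    have hm2 : K0 * p ^ m < t := by
      rcases Nat.eq_zero_or_pos m with h0 | hpos
      · rw [h0]; simp; omega
      · have := Nat.find_min hex (m := m - 1) (by omega)
        rw [not_le] at this
        have e : m - 1 + 1 = m := by omega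
        rwa [e] at this
    refine ⟨Finset.univ.image (ext (B := Fin d → ZMod p) m), ?_, ?_⟩
    · rw [Finset.card_image_of_injective _ (ext_inj m), Finset.card_univ, Fintype.card_fun, hcB,
        Fintype.card_fin, Nat.add_sub_cancel]
      rw [one_div, inv_mul_le_iff₀ (by positivity)]
      have h3 : t ^ d ≤ (K0 * p) ^ d * (p ^ d) ^ m := by
        calc t ^ d ≤ (K0 * p ^ (m + 1)) ^ d := Nat.pow_le_pow_left hm1 d
          _ = (K0 * p) ^ d * (p ^ d) ^ m := by
            rw [pow_succ, ← pow_mul, mul_comm d m, pow_mul, ← mul_pow]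
            congr 1; ring
      exact_mod_cast h3
    · intro S hS hSc
      have hagree : ∀ a ∈ S, ∀ b ∈ S, ∀ v, m ≤ v → a v = b v := by
        intro a ha b hb v hv
        obtain ⟨ga, -, rfl⟩ := Finset.mem_image.1 (hS ha)
        obtain ⟨gb, -, rfl⟩ := Finset.mem_image.1 (hS hb)
        unfold ext
        rw [dif_neg (by omega), dif_neg (by omega)]
      obtain ⟨c, f, x, u1, u2, u3, i, ρ, σ, hc, hf⟩ := exists_star hd hn hnp hp χ γ hOK enc S m
        hagree (by
          rw [hSc]
          calc n * ((p ^ d) ^ n * p ^ m) = K0 * p ^ m := by rw [hK0]; ring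
            _ < t := hm2)
      refine ⟨insert c f, ?_, ?_, c, f, x, u1, u2, u3, i, ρ, σ, rfl⟩
      · intro z hz
        rcases Finset.mem_insert.1 hz with rfl | hz
        · exact hc
        · exact hf hz
      · rw [Finset.card_insert_of_notMem σ.hc, σ.hcard]

end Pool.Agent.Helper660.TP
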