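import Mathlib
import Pool.Agent.Helper660.Lower

set_option autoImplicit false

namespace Pool.Agent.Helper660.TP

open Classical

/-- `e` is an L-shape in the grid with corner `c` -/
def LCor (e : Finset (ℕ × ℕ)) (c : ℕ × ℕ) : Prop :=
  ∃ x y, c.1 < x ∧ c.2 < y ∧ e = {c, (x, c.2), (c.1, y)}

theorem LCor_unique (e e' : Finset (ℕ × ℕ)) (c c' p p' : ℕ × ℕ) (h : LCor e c) (h' : LCor e' c')
    (hp : p ∈ e) (hp' : p' ∈ e') (heq : e.erase p = e'.erase p') : c = c' := by
  obtain ⟨x, y, hx, hy, rfl⟩ := h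
  obtain ⟨x', y', hx', hy', rfl⟩ := h'
  obtain ⟨c1, c2⟩ := c
  obtain ⟨c1', c2'⟩ := c'
  obtain ⟨p1, p2⟩ := p
  obtain ⟨p1', p2'⟩ := p'
  have key : ∀ z1 z2 : ℕ, ((¬ (z1 = p1 ∧ z2 = p2)) ∧ ((z1 = c1 ∧ z2 = c2) ∨ (z1 = x ∧ z2 = c2)
      ∨ (z1 = c1 ∧ z2 = y))) ↔ ((¬ (z1 = p1' ∧ z2 = p2')) ∧ ((z1 = c1' ∧ z2 = c2') ∨
      (z1 = x' ∧ z2 = c2') ∨ (z1 = c1' ∧ z2 = y'))) := by
    intro z1 z2
    have := Finset.ext_iff.1 heq (z1, z2)
    simpa only [Finset.mem_erase, Finset.mem_insert, Finset.mem_singleton, ne_eq,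
      Prod.mk.injEq] using this
  simp only [Finset.mem_insert, Finset.mem_singleton, Prod.mk.injEq] at hp hp' hx hy hx' hy'
  have k1 := (key c1 c2).1
  have k2 := (key x c2).1
  have k3 := (key c1 y).1
  clear key heq
  rw [Prod.mk.injEq]
  rcases hp with ⟨rfl, rfl⟩ | ⟨rfl, rfl⟩ | ⟨rfl, rfl⟩ <;>
  rcases hp' with ⟨rfl, rfl⟩ | ⟨rfl, rfl⟩ | ⟨rfl, rfl⟩ <;> omega

theorem exists_LCor (N : ℕ) (S : Finset (ℕ × ℕ))
    (hS : S ⊆ Finset.range N ×ˢ Finset.range N) (hc : 2 * N < S.card) :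
    ∃ e ⊆ S, e.card = 3 ∧ ∃ c, LCor e c := by
  by_contra hcon
  push Not at hcon
  set A := S.filter (fun c => ∀ x, (x, c.2) ∈ S → x ≤ c.1) with hA
  set B := S.filter (fun c => ∀ y, (c.1, y) ∈ S → y ≤ c.2) with hB
  have hAB : S ⊆ A ∪ B := by
    intro c hcS
    rw [Finset.mem_union, hA, hB, Finset.mem_filter, Finset.mem_filter]
    by_contra h
    have h1 : ¬ ∀ x, (x, c.2) ∈ S → x ≤ c.1 := fun h1 => h (Or.inl ⟨hcS, h1⟩)
    have h2 : ¬ ∀ y, (c.1, y) ∈ S → y ≤ c.2 := fun h2 => h (Or.inr ⟨hcS, h2⟩)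
    push Not at h1 h2
    obtain ⟨x, hxS, hx⟩ := h1
    obtain ⟨y, hyS, hy⟩ := h2
    refine hcon {c, (x, c.2), (c.1, y)} ?_ ?_ c ⟨x, y, hx, hy, rfl⟩
    · intro z hz
      simp only [Finset.mem_insert, Finset.mem_singleton] at hz
      rcases hz with rfl | rfl | rfl
      · exact hcS
      · exact hxS
      · exact hyS
    · obtain ⟨c1, c2⟩ := c
      rw [Finset.card_insert_of_notMem, Finset.card_insert_of_notMem, Finset.card_singleton]
      · simp only [Finset.mem_singleton, Prod.mk.injEq]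
        simp only at hx hy
        omega
      · simp only [Finset.mem_insert, Finset.mem_singleton, Prod.mk.injEq]
        simp only at hx hy
        omega
  have hAc : A.card ≤ N := by
    have := Finset.card_le_card_of_injOn (s := A) (t := Finset.range N) (fun c => c.2) (by
      intro c hc
      rw [hA, Finset.mem_coe, Finset.mem_filter] at hc
      have := hS hc.1
      rw [Finset.mem_product] at this
      exact this.2) (by
      intro a ha b hb hab
      rw [hA, Finset.mem_coe, Finset.mem_filter] at ha hb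
      obtain ⟨a1, a2⟩ := a
      obtain ⟨b1, b2⟩ := b
      simp only at ha hb hab
      subst hab
      have h1 := ha.2 b1 hb.1
      have h2 := hb.2 a1 ha.1
      rw [Prod.mk.injEq]
      omega)
    rwa [Finset.card_range] at this
  have hBc : B.card ≤ N := by
    have := Finset.card_le_card_of_injOn (s := B) (t := Finset.range N) (fun c => c.1) (by
      intro c hc
      rw [hB, Finset.mem_coe, Finset.mem_filter] at hc
      have := hS hc.1
      rw [Finset.mem_product] at this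
      exact this.1) (by
      intro a ha b hb hab
      rw [hB, Finset.mem_coe, Finset.mem_filter] at ha hb
      obtain ⟨a1, a2⟩ := a
      obtain ⟨b1, b2⟩ := b
      simp only at ha hb hab
      subst hab
      have h1 := ha.2 b2 hb.1
      have h2 := hb.2 a2 ha.1
      rw [Prod.mk.injEq]
      omega)
    rwa [Finset.card_range] at this
  have h1 := Finset.card_le_card hAB
  have h2 := Finset.card_union_le A B
  omega

theorem lower_three : ∃ c0 : ℝ, 0 < c0 ∧ ∃ T : ℕ,
    ∀ s : ℕ, 3 + 1 ≤ s → ∀ t : ℕ, T ≤ t → ∀ n : ℕ, (n : ℝ) ≤ c0 * (t : ℝ) ^ (3 - 1) →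
          ¬ (∀ H : Set (Finset (Fin n)),
            (∃ v : Fin (s + 3 - 1) → Fin n, Function.Injective v ∧
              ∀ i : Fin s,
                (Finset.univ.filter (fun j : Fin (s + 3 - 1) =>
                    i.val ≤ j.val ∧ j.val < i.val + 3)).image v ∈ H) ∨
            (∃ S : Finset (Fin n), S.card = t ∧
              ∀ e : Finset (Fin n), e ⊆ S → e.card = 3 → e ∉ H)) := by
  refine ⟨1 / 16, by norm_num, 4, ?_⟩
  apply lower_general (k := 3) (by omega) LCor
  · rintro e c ⟨x, y, -, -, rfl⟩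
    exact Finset.mem_insert_self _ _
  · intro e e' c c' p p' h h' hp hp' heq
    refine LCor_unique e e' c c' p p' h h' hp hp' ?_
    ext z
    have hz := Finset.ext_iff.1 heq z
    simpa only [Finset.mem_erase] using hz
  · intro t ht
    refine ⟨Finset.range ((t - 1) / 2) ×ˢ Finset.range ((t - 1) / 2), ?_, ?_⟩
    · rw [Finset.card_product, Finset.card_range]
      have h1 : t ≤ 4 * ((t - 1) / 2) := by omega
      have h2 : (t : ℝ) ≤ 4 * (((t - 1) / 2 : ℕ) : ℝ) := by exact_mod_cast h1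
      have h3 : (0 : ℝ) ≤ t := Nat.cast_nonneg t
      push_cast
      have h5 := mul_self_le_mul_self h3 h2
      have h6 : (t : ℝ) ^ (3 - 1) = t * t := by norm_num [pow_two]
      nlinarith
    · intro S hS hSc
      exact exists_LCor _ S hS (by omega)

end Pool.Agent.Helper660.TP
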