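import Mathlib

set_option autoImplicit false

namespace Pool.Agent.Helper660.TP

open Classical Finset

/-- tight path with `j` edges, indexed by naturals -/
def NPath {n : ℕ} (H : Finset (Finset (Fin n))) (k j : ℕ) : Prop :=
  ∃ v : ℕ → Fin n, (∀ a b, a < j + k - 1 → b < j + k - 1 → v a = v b → a = b) ∧
    ∀ i < j, (Finset.Ico i (i + k)).image v ∈ H

theorem npath_one {n k : ℕ} (hk : 1 ≤ k) (H : Finset (Finset (Fin n)))
    (hH : ∀ e ∈ H, e.card = k) (hne : H.Nonempty) : NPath H k 1 := by
  obtain ⟨e, he⟩ := hne
  have hec := hH e he
  set g := e.orderEmbOfFin hec with hg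
  refine ⟨fun a => if h : a < k then g ⟨a, h⟩ else g ⟨0, hk⟩, ?_, ?_⟩
  · intro a b ha hb hab
    have ha' : a < k := by omega
    have hb' : b < k := by omega
    simp only [ha', hb', dif_pos] at hab
    have := g.injective hab
    exact congrArg Fin.val this
  · intro i hi
    have : i = 0 := by omega
    subst this
    have : (Finset.Ico 0 (0 + k)).image (fun a => if h : a < k then g ⟨a, h⟩ else g ⟨0, hk⟩)
        = e := by
      ext x
      rw [Finset.mem_image]
      constructor
      · rintro ⟨a, ha, rfl⟩
        rw [Finset.mem_Ico] at ha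
        have ha' : a < k := by omega
        simp only [ha', dif_pos]
        exact Finset.orderEmbOfFin_mem e hec _
      · intro hx
        have : x ∈ Set.range g := by
          rw [hg, Finset.range_orderEmbOfFin]; exact hx
        obtain ⟨y, rfl⟩ := this
        refine ⟨y.val, by rw [Finset.mem_Ico]; omega, ?_⟩
        simp
    rw [this]; exact he

theorem npath_succ {n k j s : ℕ} (hk : 1 ≤ k) (hj : 1 ≤ j) (hjs : j ≤ s)
    (H : Finset (Finset (Fin n)))
    (hdeg : ∀ f ∈ H.shadow, s < (Finset.univ.filter (fun a => a ∉ f ∧ insert a f ∈ H)).card)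
    (h : NPath H k j) : NPath H k (j + 1) := by
  obtain ⟨v, hv, hw⟩ := h
  set f := (Finset.Ico j (j + k - 1)).image v with hf
  have hfs : f ∈ H.shadow := by
    rw [Finset.mem_shadow_iff]
    refine ⟨_, hw (j - 1) (by omega), v (j - 1), ?_, ?_⟩
    · apply Finset.mem_image_of_mem
      rw [Finset.mem_Ico]; omega
    · ext x
      rw [Finset.mem_erase, Finset.mem_image, hf, Finset.mem_image]
      constructor
      · rintro ⟨hx, a, ha, rfl⟩
        rw [Finset.mem_Ico] at ha
        refine ⟨a, ?_, rfl⟩
        rw [Finset.mem_Ico]
        have : a ≠ j - 1 := by rintro rfl; exact hx rfl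
        omega
      · rintro ⟨a, ha, rfl⟩
        rw [Finset.mem_Ico] at ha
        refine ⟨?_, a, ?_, rfl⟩
        · intro e
          have := hv _ _ (by omega) (by omega) e
          omega
        · rw [Finset.mem_Ico]; omega
  have h1 := hdeg f hfs
  set U := (Finset.range j).image v with hU
  have hUc : U.card ≤ j := by
    calc U.card ≤ (Finset.range j).card := Finset.card_image_le
      _ = j := Finset.card_range j
  obtain ⟨a, ha, haU⟩ : ∃ a ∈ Finset.univ.filter (fun a => a ∉ f ∧ insert a f ∈ H), a ∉ U := by
    by_contra hcon
    push Not at hcon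
    have := Finset.card_le_card (s := Finset.univ.filter (fun a => a ∉ f ∧ insert a f ∈ H))
      (t := U) (fun x hx => hcon x hx)
    omega
  rw [Finset.mem_filter] at ha
  obtain ⟨-, haf, haH⟩ := ha
  have hnew : ∀ b, b < j + k - 1 → v b ≠ a := by
    rintro b hb rfl
    by_cases hbj : b < j
    · exact haU (Finset.mem_image_of_mem _ (Finset.mem_range.2 hbj))
    · exact haf (Finset.mem_image_of_mem _ (by rw [Finset.mem_Ico]; omega))
  refine ⟨Function.update v (j + k - 1) a, ?_, ?_⟩
  · intro b c hb hc hbc
    by_cases eb : b = j + k - 1
    · by_cases ec : c = j + k - 1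
      · omega
      · rw [eb, Function.update_self, Function.update_of_ne ec] at hbc
        exact absurd hbc.symm (hnew c (by omega))
    · by_cases ec : c = j + k - 1
      · rw [ec, Function.update_self, Function.update_of_ne eb] at hbc
        exact absurd hbc (hnew b (by omega))
      · rw [Function.update_of_ne eb, Function.update_of_ne ec] at hbc
        exact hv b c (by omega) (by omega) hbc
  · intro i hi
    by_cases hij : i < j
    · have : (Finset.Ico i (i + k)).image (Function.update v (j + k - 1) a)
          = (Finset.Ico i (i + k)).image v := by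
        apply Finset.image_congr
        intro b hb
        rw [Finset.mem_coe, Finset.mem_Ico] at hb
        exact Function.update_of_ne (by omega) _ _
      rw [this]; exact hw i hij
    · have hij' : i = j := by omega
      subst hij'
      have : (Finset.Ico i (i + k)).image (Function.update v (i + k - 1) a) = insert a f := by
        ext x
        rw [Finset.mem_image, Finset.mem_insert, hf, Finset.mem_image]
        constructor
        · rintro ⟨b, hb, rfl⟩
          rw [Finset.mem_Ico] at hb
          by_cases eb : b = i + k - 1
          · left; rw [eb, Function.update_self]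
          · right
            exact ⟨b, by rw [Finset.mem_Ico]; omega, (Function.update_of_ne eb _ _).symm⟩
        · rintro (rfl | ⟨b, hb, rfl⟩)
          · exact ⟨i + k - 1, by rw [Finset.mem_Ico]; omega, Function.update_self _ _ _⟩
          · rw [Finset.mem_Ico] at hb
            exact ⟨b, by rw [Finset.mem_Ico]; omega, Function.update_of_ne (by omega) _ _⟩
      rw [this]; exact haH

theorem npath_of_deg {n k s : ℕ} (hk : 1 ≤ k) (H : Finset (Finset (Fin n)))
    (hH : ∀ e ∈ H, e.card = k) (hne : H.Nonempty)
    (hdeg : ∀ f ∈ H.shadow, s < (Finset.univ.filter (fun a => a ∉ f ∧ insert a f ∈ H)).card) :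
    ∀ j, 1 ≤ j → j ≤ s + 1 → NPath H k j := by
  intro j hj
  induction j, hj using Nat.le_induction with
  | base => intro _; exact npath_one hk H hH hne
  | succ j hj ih =>
    intro hjs
    exact npath_succ (s := s) hk hj (by omega) H hdeg (ih (by omega))

theorem npath_mono {n k j : ℕ} {H H' : Finset (Finset (Fin n))} (hHH : H ⊆ H')
    (h : NPath H k j) : NPath H' k j := by
  obtain ⟨v, hv, hw⟩ := h
  exact ⟨v, hv, fun i hi => hHH (hw i hi)⟩

theorem card_le_of_no_path {n k s : ℕ} (hk : 1 ≤ k) (hs : 1 ≤ s) :
    ∀ H : Finset (Finset (Fin n)), (∀ e ∈ H, e.card = k) → ¬ NPath H k s →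
      H.card ≤ s * H.shadow.card := by
  intro H
  induction H using Finset.strongInduction with
  | _ H ih =>
    intro hH hno
    rcases H.eq_empty_or_nonempty with h0 | hne
    · subst h0; simp
    · by_cases hdeg : ∀ f ∈ H.shadow,
          s < (Finset.univ.filter (fun a => a ∉ f ∧ insert a f ∈ H)).card
      · exact absurd (npath_of_deg hk H hH hne hdeg s hs (by omega)) hno
      · push Not at hdeg
        obtain ⟨f, hf, hfd⟩ := hdeg
        set H' := H.filter (fun e => ¬ ∃ a, a ∉ f ∧ insert a f = e) with hH'
        have hss : H' ⊂ H := by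
          rw [Finset.ssubset_iff_of_subset (Finset.filter_subset _ _)]
          obtain ⟨a, ha, haH⟩ := Finset.mem_shadow_iff_insert_mem.1 hf
          refine ⟨insert a f, haH, ?_⟩
          rw [Finset.mem_filter]
          rintro ⟨-, h⟩
          exact h ⟨a, ha, rfl⟩
        have h1 := ih H' hss (fun e he => hH e (hss.1 he)) (fun h => hno (npath_mono hss.1 h))
        have h2 : H'.shadow ⊆ H.shadow.erase f := by
          intro g hg
          rw [Finset.mem_erase]
          refine ⟨?_, Finset.shadow_mono hss.1 hg⟩
          rintro rfl
          obtain ⟨a, ha, haH⟩ := Finset.mem_shadow_iff_insert_mem.1 hg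
          rw [hH', Finset.mem_filter] at haH
          exact haH.2 ⟨a, ha, rfl⟩
        have h3 := Finset.card_le_card h2
        rw [Finset.card_erase_of_mem hf] at h3
        have h4 : H.card ≤ H'.card + s := by
          have e1 : H = H' ∪ H.filter (fun e => ∃ a, a ∉ f ∧ insert a f = e) := by
            ext e
            rw [hH', Finset.mem_union, Finset.mem_filter, Finset.mem_filter]
            tauto
          have e2 : (H.filter (fun e => ∃ a, a ∉ f ∧ insert a f = e)).card ≤ s := by
            refine le_trans (le_trans (Finset.card_le_card (t := (Finset.univ.filter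
              (fun a => a ∉ f ∧ insert a f ∈ H)).image (fun a => insert a f)) ?_)
              Finset.card_image_le) hfd
            intro e he
            rw [Finset.mem_filter] at he
            obtain ⟨he, a, ha, rfl⟩ := he
            rw [Finset.mem_image]
            exact ⟨a, by rw [Finset.mem_filter]; exact ⟨Finset.mem_univ _, ha, he⟩, rfl⟩
          calc H.card = _ := congrArg Finset.card e1
            _ ≤ _ := Finset.card_union_le _ _
            _ ≤ _ := by omega
        have hpos : 0 < H.shadow.card := Finset.card_pos.2 ⟨f, hf⟩
        calc H.card ≤ s * H'.shadow.card + s := by omega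
          _ = s * (H'.shadow.card + 1) := by ring
          _ ≤ s * H.shadow.card := Nat.mul_le_mul_left _ (by omega)

/-- thinning out: some `a`-set spans few edges -/
theorem exists_sparse {n k : ℕ} (H : Finset (Finset (Fin n))) (hH : ∀ e ∈ H, e.card = k) :
    ∀ b a, a + b = n → ∃ A : Finset (Fin n), A.card = a ∧
      (H.filter (fun e => e ⊆ A)).card * n.choose k ≤ H.card * a.choose k := by
  intro b
  induction b with
  | zero =>
    intro a ha
    refine ⟨Finset.univ, by rw [Finset.card_univ, Fintype.card_fin]; omega, ?_⟩
    have : a = n := by omega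
    subst this
    apply Nat.mul_le_mul_right
    exact Finset.card_filter_le _ _
  | succ b ih =>
    intro a ha
    obtain ⟨A, hAc, hA⟩ := ih (a + 1) (by omega)
    set E := H.filter (fun e => e ⊆ A) with hE
    -- a vertex of large degree
    have hsum : ∑ v ∈ A, (E.filter (fun e => v ∈ e)).card = E.card * k := by
      simp only [Finset.card_filter]
      rw [Finset.sum_comm]
      have : ∀ e ∈ E, (∑ v ∈ A, if v ∈ e then 1 else 0) = k := by
        intro e he
        rw [hE, Finset.mem_filter] at he
        rw [← Finset.card_filter, Finset.filter_mem_eq_inter, Finset.inter_eq_right.2 he.2]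
        exact hH e he.1
      rw [Finset.sum_congr rfl this, Finset.sum_const, smul_eq_mul]
    have hex : ∃ v ∈ A, E.card * k ≤ (E.filter (fun e => v ∈ e)).card * (a + 1) := by
      by_contra hcon
      push Not at hcon
      have hne : A.Nonempty := by rw [← Finset.card_pos]; omega
      have h1 := Finset.sum_lt_sum_of_nonempty hne hcon
      rw [← Finset.sum_mul, hsum, Finset.sum_const, smul_eq_mul, hAc] at h1
      have : E.card * k * (a + 1) = (a + 1) * (E.card * k) := by ring
      omega
    obtain ⟨v, hv, hvd⟩ := hex
    refine ⟨A.erase v, by rw [Finset.card_erase_of_mem hv]; omega, ?_⟩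
    set E' := H.filter (fun e => e ⊆ A.erase v) with hE'
    have hE'c : E'.card + (E.filter (fun e => v ∈ e)).card = E.card := by
      have : E' = E.filter (fun e => ¬ v ∈ e) := by
        ext e
        rw [hE', hE, Finset.mem_filter, Finset.mem_filter, Finset.mem_filter,
          Finset.subset_erase]
        tauto
      rw [this, add_comm]
      exact Finset.card_filter_add_card_filter_not (fun e => v ∈ e)
    have key : E'.card * (a + 1) ≤ E.card * (a + 1 - k) := by
      rcases Nat.lt_or_ge a k with hlt | hge
      · -- no edges inside a set with fewer than k elements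
        have : E' = ∅ := by
          rw [Finset.eq_empty_iff_forall_notMem]
          intro e he
          rw [hE', Finset.mem_filter] at he
          have h1 := Finset.card_le_card he.2
          rw [Finset.card_erase_of_mem hv, hH e he.1] at h1
          omega
        rw [this]; simp
      · have h1 : E'.card * (a + 1) + (E.filter (fun e => v ∈ e)).card * (a + 1)
            = E.card * (a + 1) := by rw [← add_mul, hE'c]
        have h2 : E.card * (a + 1 - k) + E.card * k = E.card * (a + 1) := by
          rw [← mul_add]; congr 1; omega
        omega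
    have h3 := Nat.choose_mul_succ_eq a k
    have h4 : (E'.card * n.choose k) * (a + 1) ≤ (H.card * a.choose k) * (a + 1) := by
      calc (E'.card * n.choose k) * (a + 1) = (E'.card * (a + 1)) * n.choose k := by ring
        _ ≤ (E.card * (a + 1 - k)) * n.choose k := Nat.mul_le_mul_right _ key
        _ = (E.card * n.choose k) * (a + 1 - k) := by ring
        _ ≤ (H.card * (a + 1).choose k) * (a + 1 - k) := Nat.mul_le_mul_right _ hA
        _ = H.card * ((a + 1).choose k * (a + 1 - k)) := by ring
        _ = H.card * (a.choose k * (a + 1)) := by rw [h3]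
        _ = _ := by ring
    exact Nat.le_of_mul_le_mul_right h4 (by omega)

theorem upper_bound {n k s t : ℕ} (hk : 1 ≤ k) (hs : 1 ≤ s) (ht : 1 ≤ t)
    (hn : (s * k * 2 ^ k + k + 2) * t ^ (k - 1) ≤ n) (hk2 : 2 ≤ k) (H : Set (Finset (Fin n))) :
    (∃ v : Fin (s + k - 1) → Fin n, Function.Injective v ∧
              ∀ i : Fin s,
                (Finset.univ.filter (fun j : Fin (s + k - 1) =>
                    i.val ≤ j.val ∧ j.val < i.val + k)).image v ∈ H) ∨
            (∃ S : Finset (Fin n), S.card = t ∧
              ∀ e : Finset (Fin n), e ⊆ S → e.card = k → e ∉ H) := by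
  set Hk := (Finset.powersetCard k (Finset.univ : Finset (Fin n))).filter (fun e => e ∈ H)
    with hHk
  have hHkc : ∀ e ∈ Hk, e.card = k := by
    intro e he
    rw [hHk, Finset.mem_filter, Finset.mem_powersetCard] at he
    exact he.1.2
  by_cases hpath : NPath Hk k s
  · left
    obtain ⟨v, hv, hw⟩ := hpath
    refine ⟨fun j => v j.val, ?_, ?_⟩
    · intro a b hab
      exact Fin.ext (hv _ _ a.isLt b.isLt hab)
    · intro i
      have h1 := hw i.val i.isLt
      rw [hHk, Finset.mem_filter] at h1
      have h2 : (Finset.univ.filter (fun j : Fin (s + k - 1) =>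
                    i.val ≤ j.val ∧ j.val < i.val + k)).image (fun j => v j.val)
          = (Finset.Ico i.val (i.val + k)).image v := by
        ext x
        simp only [Finset.mem_image, Finset.mem_filter, Finset.mem_univ, true_and,
          Finset.mem_Ico]
        constructor
        · rintro ⟨j, hj, rfl⟩
          exact ⟨j.val, hj, rfl⟩
        · rintro ⟨j, hj, rfl⟩
          have := i.isLt
          exact ⟨⟨j, by omega⟩, hj, rfl⟩
      rw [h2]; exact h1.2
  · right
    have h1 := card_le_of_no_path hk hs Hk hHkc hpath
    have hsh : Hk.shadow.card ≤ n.choose (k - 1) := by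
      have : Hk.shadow ⊆ Finset.powersetCard (k - 1) (Finset.univ : Finset (Fin n)) := by
        intro f hf
        obtain ⟨e, he, a, ha, rfl⟩ := Finset.mem_shadow_iff.1 hf
        rw [Finset.mem_powersetCard, Finset.card_erase_of_mem ha, hHkc e he]
        exact ⟨Finset.subset_univ _, rfl⟩
      have h2 := Finset.card_le_card this
      rwa [Finset.card_powersetCard, Finset.card_univ, Fintype.card_fin] at h2
    have htk : t ≤ t ^ (k - 1) := by
      calc t = t ^ 1 := (pow_one t).symm
        _ ≤ t ^ (k - 1) := Nat.pow_le_pow_right ht (by omega)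
    have hn1 : s * k * 2 ^ k * t ^ (k - 1) + k * t ^ (k - 1) + 2 * t ^ (k - 1) ≤ n := by
      calc _ = (s * k * 2 ^ k + k + 2) * t ^ (k - 1) := by ring
        _ ≤ n := hn
    have hkt : k ≤ k * t ^ (k - 1) := Nat.le_mul_of_pos_right _ (by positivity)
    have h2t : 2 * t ≤ n := by omega
    obtain ⟨A, hAc, hA⟩ := exists_sparse Hk hHkc (n - 2 * t) (2 * t) (by omega)
    set E := Hk.filter (fun e => e ⊆ A) with hE
    have hEt : E.card ≤ t := by
      -- E.card * C(n,k) ≤ s * C(n,k-1) * C(2t,k)
      have h3 : E.card * n.choose k ≤ s * n.choose (k - 1) * (2 * t).choose k := by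
        calc E.card * n.choose k ≤ Hk.card * (2 * t).choose k := hA
          _ ≤ (s * n.choose (k - 1)) * (2 * t).choose k := by
            apply Nat.mul_le_mul_right
            exact h1.trans (Nat.mul_le_mul_left _ hsh)
      have h4 : n.choose k * k = n.choose (k - 1) * (n - (k - 1)) := by
        have := Nat.choose_succ_right_eq n (k - 1)
        rwa [Nat.sub_add_cancel hk] at this
      have h5 : (2 * t).choose k ≤ (2 * t) ^ k := Nat.choose_le_pow _ _
      have h6 : 0 < n.choose (k - 1) := Nat.choose_pos (by omega)
      have h7 : E.card * (n - (k - 1)) ≤ s * k * (2 * t) ^ k := by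
        have : n.choose (k - 1) * (E.card * (n - (k - 1)))
            ≤ n.choose (k - 1) * (s * k * (2 * t) ^ k) := by
          calc n.choose (k - 1) * (E.card * (n - (k - 1)))
              = (E.card * n.choose k) * k := by
                rw [mul_assoc, h4]; ring
            _ ≤ (s * n.choose (k - 1) * (2 * t).choose k) * k := Nat.mul_le_mul_right _ h3
            _ ≤ (s * n.choose (k - 1) * (2 * t) ^ k) * k := by gcongr
            _ = _ := by ring
        exact Nat.le_of_mul_le_mul_left this h6
      by_contra hcon
      push Not at hcon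
      have h8 : t * (n - (k - 1)) < E.card * (n - (k - 1)) :=
        Nat.mul_lt_mul_of_pos_right hcon (by omega)
      have h9 : s * k * (2 * t) ^ k ≤ t * (n - (k - 1)) := by
        have e1 : s * k * (2 * t) ^ k = t * (s * k * 2 ^ k * t ^ (k - 1)) := by
          rw [mul_pow]
          have : t ^ k = t ^ (k - 1) * t := by
            rw [← pow_succ]; congr 1; omega
          rw [this]; ring
        rw [e1]
        apply Nat.mul_le_mul_left
        omega
      omega
    -- delete one vertex from each edge
    have hne : ∀ e ∈ E, ∃ v, v ∈ e := by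
      intro e he
      rw [hE, Finset.mem_filter] at he
      have := hHkc e he.1
      exact Finset.card_pos.1 (by omega)
    have hnonempty : Nonempty (Fin n) := ⟨⟨0, by omega⟩⟩
    choose! g hg using hne
    have hI : t ≤ (A \ E.image g).card := by
      have h3 := Finset.le_card_sdiff (E.image g) A
      have h4 : (E.image g).card ≤ E.card := Finset.card_image_le
      omega
    obtain ⟨S, hS, hSc⟩ := Finset.exists_subset_card_eq hI
    refine ⟨S, hSc, ?_⟩
    intro e heS hek heH
    have heE : e ∈ E := by
      rw [hE, Finset.mem_filter, hHk, Finset.mem_filter, Finset.mem_powersetCard]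
      exact ⟨⟨⟨Finset.subset_univ _, hek⟩, heH⟩, (heS.trans hS).trans Finset.sdiff_subset⟩
    have h3 := hS (heS (hg e heE))
    rw [Finset.mem_sdiff] at h3
    exact h3.2 (Finset.mem_image_of_mem g heE)

end Pool.Agent.Helper660.TP
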